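import Pool.Agent.X104.PS.Main

/-!
Capacities: definitions, scaling, translation estimate, local Sobolev inequality.
-/

set_option autoImplicit false
set_option linter.unusedSectionVars false

noncomputable section

open Filter Topology Set MeasureTheory
open scoped ENNReal ContDiff NNReal

namespace Pool.Agent.X104.CI

open Pool.Agent.X104.PS

variable {N : ℕ} {p : ℝ}

/-- the energy `∫ |∇φ|^p` -/
def EnE (p : ℝ) (φ : Eu N → ℝ) : ℝ≥0∞ := ∫⁻ x, ‖fderiv ℝ φ x‖ₑ ^ p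
/-- `∫ |φ|^p` -/
def NmE (p : ℝ) (φ : Eu N → ℝ) : ℝ≥0∞ := ∫⁻ x, ‖φ x‖ₑ ^ p

/-- the capacity of `K` relative to `E` -/
def cap (p : ℝ) (K E : Set (Eu N)) : ℝ≥0∞ :=
  ⨅ (φ : Eu N → ℝ) (_ : IsTest E φ) (_ : ∀ x ∈ K, 1 ≤ φ x), EnE p φ

theorem cap_le {K E : Set (Eu N)} {φ : Eu N → ℝ} (h : IsTest E φ) (h1 : ∀ x ∈ K, 1 ≤ φ x) :
    cap p K E ≤ EnE p φ := iInf_le_of_le φ (iInf_le_of_le h (iInf_le_of_le h1 le_rfl))

theorem le_cap {K E : Set (Eu N)} {c : ℝ≥0∞}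
    (h : ∀ φ : Eu N → ℝ, IsTest E φ → (∀ x ∈ K, 1 ≤ φ x) → c ≤ EnE p φ) : c ≤ cap p K E :=
  le_iInf fun φ => le_iInf fun h1 => le_iInf fun h2 => h φ h1 h2

theorem exists_of_cap_lt {K E : Set (Eu N)} {c : ℝ≥0∞} (h : cap p K E < c) :
    ∃ φ : Eu N → ℝ, IsTest E φ ∧ (∀ x ∈ K, 1 ≤ φ x) ∧ EnE p φ < c := by
  unfold cap at h
  simp only [iInf_lt_iff] at h
  obtain ⟨φ, h1, h2, h3⟩ := h
  exact ⟨φ, h1, h2, h3⟩

theorem cap_mono_E {K E E' : Set (Eu N)} (h : E ⊆ E') : cap p K E' ≤ cap p K E :=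
  le_cap fun _ h1 h2 => cap_le ⟨h1.1, h1.2.1, h1.2.2.trans h⟩ h2

/-! ### affine maps -/

def aff (x : Eu N) (r : ℝ) (y : Eu N) : Eu N := x + r • y

def affH (x : Eu N) {r : ℝ} (hr : r ≠ 0) : Eu N ≃ₜ Eu N :=
  (Homeomorph.smulOfNeZero r hr).trans (Homeomorph.addLeft x)

theorem affH_apply (x : Eu N) {r : ℝ} (hr : r ≠ 0) (y : Eu N) : affH x hr y = aff x r y := rfl

theorem affH_eq (x : Eu N) {r : ℝ} (hr : r ≠ 0) : (affH x hr : Eu N → Eu N) = aff x r := rfl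

theorem test_aff {E : Set (Eu N)} {φ : Eu N → ℝ} (h : IsTest E φ) (x : Eu N) {r : ℝ}
    (hr : r ≠ 0) : IsTest (aff x r ⁻¹' E) (φ ∘ aff x r) := by
  refine ⟨h.1.comp ?_, ?_, ?_⟩
  · unfold aff; fun_prop
  · rw [← affH_eq x hr]; exact h.2.1.comp_homeomorph (affH x hr)
  · rw [← affH_eq x hr, tsupport_comp_eq_preimage]
    exact preimage_mono h.2.2

theorem lint_aff (x : Eu N) {r : ℝ} (hr : 0 < r) {g : Eu N → ℝ≥0∞} (hg : Measurable g) :
    ∫⁻ y, g (aff x r y) = ENNReal.ofReal ((r ^ N)⁻¹) * ∫⁻ y, g y := by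
  have h1 : ∫⁻ y, g (aff x r y) = ∫⁻ y, (fun z => g (x + z)) (r • y) := rfl
  have hm : Measurable fun z : Eu N => g (x + z) := hg.comp (measurable_const_add x)
  rw [h1, ← lintegral_map hm (measurable_const_smul r), Measure.map_addHaar_smul _ hr.ne',
    lintegral_smul_measure]
  have h2 : ∫⁻ z : Eu N, g (x + z) = ∫⁻ y, g y := lintegral_add_left_eq_self g x
  rw [h2]
  have h3 : Module.finrank ℝ (Eu N) = N := by simp
  rw [h3, abs_of_pos (by positivity)]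
  rfl

theorem meas_fd {E : Set (Eu N)} {φ : Eu N → ℝ} (h : IsTest E φ) :
    Measurable fun x => ‖fderiv ℝ φ x‖ₑ ^ p :=
  (h.1.continuous_fderiv (by norm_num)).measurable.enorm.pow_const p

theorem meas_f {E : Set (Eu N)} {φ : Eu N → ℝ} (h : IsTest E φ) :
    Measurable fun x => ‖φ x‖ₑ ^ p := h.1.continuous.measurable.enorm.pow_const p

def s1 (N : ℕ) (p r : ℝ) : ℝ≥0∞ := ENNReal.ofReal (r ^ p * (r ^ N)⁻¹)

theorem s1_ne_zero {r : ℝ} (hr : 0 < r) : s1 N p r ≠ 0 := by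
  rw [s1, Ne, ENNReal.ofReal_eq_zero, not_le]; positivity

theorem s1_ne_top {r : ℝ} : s1 N p r ≠ ⊤ := ENNReal.ofReal_ne_top

theorem s1_inv {r : ℝ} (hr : 0 < r) : s1 N p r * s1 N p r⁻¹ = 1 := by
  rw [s1, s1, ← ENNReal.ofReal_mul (by positivity), Real.inv_rpow hr.le]
  have h1 : r ^ p ≠ 0 := by positivity
  have h2 : r ^ N ≠ 0 := by positivity
  rw [show r ^ p * (r ^ N)⁻¹ * ((r ^ p)⁻¹ * (r⁻¹ ^ N)⁻¹) = 1 by
    rw [inv_pow]; field_simp, ENNReal.ofReal_one]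

theorem EnE_aff {E : Set (Eu N)} {φ : Eu N → ℝ} (h : IsTest E φ) (x : Eu N) {r : ℝ}
    (hr : 0 < r) (hp : 1 < p) : EnE p (φ ∘ aff x r) = s1 N p r * EnE p φ := by
  have hd : ∀ y, ‖fderiv ℝ (φ ∘ aff x r) y‖ₑ = ENNReal.ofReal r * ‖fderiv ℝ φ (aff x r y)‖ₑ := by
    intro y
    have h1 : HasFDerivAt (aff x r) (r • ContinuousLinearMap.id ℝ (Eu N)) y := by
      have := ((ContinuousLinearMap.id ℝ (Eu N)).hasFDerivAt (x := y)).const_smul r
      exact this.const_add x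
    have h2 := ((h.diff (aff x r y)).hasFDerivAt.comp y h1).fderiv
    have h3 : (fderiv ℝ φ (aff x r y)).comp (r • ContinuousLinearMap.id ℝ (Eu N)) =
        r • fderiv ℝ φ (aff x r y) := by
      ext v; simp
    rw [h2, h3, enorm_smul, Real.enorm_eq_ofReal hr.le]
  unfold EnE
  have h1 : ∀ y, ‖fderiv ℝ (φ ∘ aff x r) y‖ₑ ^ p =
      ENNReal.ofReal (r ^ p) * ‖fderiv ℝ φ (aff x r y)‖ₑ ^ p := by
    intro y
    rw [hd, ENNReal.mul_rpow_of_nonneg _ _ (by linarith),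
      ENNReal.ofReal_rpow_of_pos hr]
  simp_rw [h1]
  rw [lintegral_const_mul' _ _ ENNReal.ofReal_ne_top,
    lint_aff x hr (g := fun y => ‖fderiv ℝ φ y‖ₑ ^ p) (meas_fd h), ← mul_assoc, s1,
    ← ENNReal.ofReal_mul (by positivity)]

theorem NmE_aff {E : Set (Eu N)} {φ : Eu N → ℝ} (h : IsTest E φ) (x : Eu N) {r : ℝ}
    (hr : 0 < r) : NmE p (φ ∘ aff x r) = ENNReal.ofReal ((r ^ N)⁻¹) * NmE p φ :=
  lint_aff x hr (g := fun y => ‖φ y‖ₑ ^ p) (meas_f h)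

theorem cap_aff_le (K E : Set (Eu N)) (x : Eu N) {r : ℝ} (hr : 0 < r) (hp : 1 < p) :
    cap p (aff x r ⁻¹' K) (aff x r ⁻¹' E) ≤ s1 N p r * cap p K E := by
  have h1 : s1 N p r⁻¹ * cap p (aff x r ⁻¹' K) (aff x r ⁻¹' E) ≤ cap p K E := by
    refine le_cap fun φ h hφ => ?_
    have h2 : cap p (aff x r ⁻¹' K) (aff x r ⁻¹' E) ≤ s1 N p r * EnE p φ := by
      rw [← EnE_aff h x hr hp]
      exact cap_le (test_aff h x hr.ne') fun y hy => hφ _ hy
    calc s1 N p r⁻¹ * cap p (aff x r ⁻¹' K) (aff x r ⁻¹' E)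
        ≤ s1 N p r⁻¹ * (s1 N p r * EnE p φ) := by gcongr
      _ = EnE p φ := by rw [← mul_assoc, mul_comm (s1 N p r⁻¹), s1_inv hr, one_mul]
  calc cap p (aff x r ⁻¹' K) (aff x r ⁻¹' E)
      = s1 N p r * (s1 N p r⁻¹ * cap p (aff x r ⁻¹' K) (aff x r ⁻¹' E)) := by
        rw [← mul_assoc, s1_inv hr, one_mul]
    _ ≤ _ := by gcongr

theorem cap_aff (K E : Set (Eu N)) (x : Eu N) {r : ℝ} (hr : 0 < r) (hp : 1 < p) :
    cap p (aff x r ⁻¹' K) (aff x r ⁻¹' E) = s1 N p r * cap p K E := by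
  refine le_antisymm (cap_aff_le K E x hr hp) ?_
  have hr' : 0 < r⁻¹ := inv_pos.mpr hr
  have h1 := cap_aff_le (aff x r ⁻¹' K) (aff x r ⁻¹' E) (-(r⁻¹ • x)) hr' hp
  have h2 : ∀ A : Set (Eu N), aff (-(r⁻¹ • x)) r⁻¹ ⁻¹' (aff x r ⁻¹' A) = A := by
    intro A
    ext y
    simp only [mem_preimage, aff]
    have : x + r • (-(r⁻¹ • x) + r⁻¹ • y) = y := by
      rw [smul_add, smul_neg, smul_smul, smul_smul, mul_inv_cancel₀ hr.ne', one_smul, one_smul]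
      abel
    rw [this]
  rw [h2, h2] at h1
  calc s1 N p r * cap p K E ≤ s1 N p r * (s1 N p r⁻¹ * cap p (aff x r ⁻¹' K) (aff x r ⁻¹' E)) := by
        gcongr
    _ = _ := by rw [← mul_assoc, s1_inv hr, one_mul]

theorem aff_closedBall (x : Eu N) {r : ℝ} (hr : 0 < r) (t : ℝ) :
    aff x r ⁻¹' Metric.closedBall x (r * t) = Metric.closedBall 0 t := by
  ext y
  simp only [mem_preimage, Metric.mem_closedBall, dist_eq_norm, aff, add_sub_cancel_left,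
    sub_zero, norm_smul, Real.norm_eq_abs, abs_of_pos hr]
  exact mul_le_mul_iff_right₀ hr

theorem aff_ball (x : Eu N) {r : ℝ} (hr : 0 < r) (t : ℝ) :
    aff x r ⁻¹' Metric.ball x (r * t) = Metric.ball 0 t := by
  ext y
  simp only [mem_preimage, Metric.mem_ball, dist_eq_norm, aff, add_sub_cancel_left,
    sub_zero, norm_smul, Real.norm_eq_abs, abs_of_pos hr]
  exact mul_lt_mul_iff_right₀ hr

/-! ### translation estimate -/

theorem trans_est {E : Set (Eu N)} {φ : Eu N → ℝ} (hφ : IsTest E φ) (hp : 1 < p) (h : Eu N) :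
    ∫⁻ x, ‖φ (x + h) - φ x‖ₑ ^ p ≤ ‖h‖ₑ ^ p * EnE p φ := by
  have hp0 : 0 < p := by linarith
  have hfc : Continuous (fderiv ℝ φ) := hφ.1.continuous_fderiv (by norm_num)
  set ν : Measure ℝ := volume.restrict (Ioc 0 1) with hν
  have hνu : ν univ = 1 := by
    rw [hν, Measure.restrict_apply_univ, Real.volume_Ioc, sub_zero, ENNReal.ofReal_one]
  have hpt : ∀ x, ‖φ (x + h) - φ x‖ₑ ≤ ‖h‖ₑ * ∫⁻ t, ‖fderiv ℝ φ (x + t • h)‖ₑ ∂ν := by
    intro x
    have h1 : ∀ t : ℝ, HasDerivAt (fun t : ℝ => φ (x + t • h)) (fderiv ℝ φ (x + t • h) h) t := by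
      intro t
      have h2 : HasDerivAt (fun t : ℝ => x + t • h) h t := by
        have := ((hasDerivAt_id t).smul_const h).const_add x
        simpa using this
      exact (hφ.diff (x + t • h)).hasFDerivAt.comp_hasDerivAt t h2
    have hc : Continuous fun t : ℝ => fderiv ℝ φ (x + t • h) h :=
      (hfc.comp (by fun_prop)).clm_apply continuous_const
    have h3 := intervalIntegral.integral_eq_sub_of_hasDerivAt (a := 0) (b := 1)
      (fun t _ => h1 t) (hc.intervalIntegrable 0 1)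
    rw [one_smul, zero_smul, add_zero, intervalIntegral.integral_of_le zero_le_one] at h3
    rw [← h3]
    refine (enorm_integral_le_lintegral_enorm _).trans ?_
    rw [← lintegral_const_mul' _ _ enorm_ne_top]
    refine lintegral_mono fun t => ?_
    rw [mul_comm]
    exact ContinuousLinearMap.le_opENorm _ _
  have hpt2 : ∀ x, ‖φ (x + h) - φ x‖ₑ ^ p ≤
      ‖h‖ₑ ^ p * ∫⁻ t, ‖fderiv ℝ φ (x + t • h)‖ₑ ^ p ∂ν := by
    intro x
    have hcf : Continuous fun t : ℝ => fderiv ℝ φ (x + t • h) := hfc.comp (by fun_prop)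
    have h1 := eLpNorm_le_eLpNorm_mul_rpow_measure_univ (p := 1) (q := ENNReal.ofReal p) (μ := ν)
      (by rw [← ENNReal.ofReal_one]; exact ENNReal.ofReal_le_ofReal hp.le)
      hcf.aestronglyMeasurable
    rw [eLpNorm_one_eq_lintegral_enorm, lint_eLp hp, ENNReal.toReal_one, div_one, P_toReal hp,
      hνu, ENNReal.one_rpow, mul_one] at h1
    calc ‖φ (x + h) - φ x‖ₑ ^ p ≤ (‖h‖ₑ * ∫⁻ t, ‖fderiv ℝ φ (x + t • h)‖ₑ ∂ν) ^ p :=
          ENNReal.rpow_le_rpow (hpt x) hp0.le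
      _ ≤ (‖h‖ₑ * (∫⁻ t, ‖fderiv ℝ φ (x + t • h)‖ₑ ^ p ∂ν) ^ (1 / p)) ^ p := by gcongr
      _ = _ := by
          rw [ENNReal.mul_rpow_of_nonneg _ _ hp0.le, ← ENNReal.rpow_mul, one_div_mul_cancel hp0.ne',
            ENNReal.rpow_one]
  have hmeas : Measurable (Function.uncurry fun (x : Eu N) (t : ℝ) =>
      ‖fderiv ℝ φ (x + t • h)‖ₑ ^ p) := by
    have hc : Continuous (Function.uncurry fun (x : Eu N) (t : ℝ) =>
      fderiv ℝ φ (x + t • h)) := hfc.comp (by fun_prop)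
    exact hc.measurable.enorm.pow_const p
  have hht : ‖h‖ₑ ^ p ≠ ⊤ := ENNReal.rpow_ne_top_of_nonneg hp0.le enorm_ne_top
  calc ∫⁻ x, ‖φ (x + h) - φ x‖ₑ ^ p
      ≤ ∫⁻ x, ‖h‖ₑ ^ p * ∫⁻ t, ‖fderiv ℝ φ (x + t • h)‖ₑ ^ p ∂ν := lintegral_mono hpt2
    _ = ‖h‖ₑ ^ p * ∫⁻ x, ∫⁻ t, ‖fderiv ℝ φ (x + t • h)‖ₑ ^ p ∂ν := by
        rw [lintegral_const_mul' _ _ hht]
    _ = ‖h‖ₑ ^ p * ∫⁻ t, ∫⁻ x, ‖fderiv ℝ φ (x + t • h)‖ₑ ^ p ∂volume ∂ν := by
        rw [lintegral_lintegral_swap hmeas.aemeasurable]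
    _ = ‖h‖ₑ ^ p * ∫⁻ _t, EnE p φ ∂ν := by
        congr 1
        refine lintegral_congr fun t => ?_
        exact lintegral_add_right_eq_self (fun x => ‖fderiv ℝ φ x‖ₑ ^ p) (t • h)
    _ = _ := by rw [lintegral_const, hνu, mul_one]

/-! ### local Sobolev inequality -/

theorem local_sobolev (hp : 1 < p) (hpN : p < N) : ∃ C : ℝ≥0∞, C ≠ ⊤ ∧
    ∀ (E : Set (Eu N)) (φ : Eu N → ℝ), IsTest E φ →
      eLpNorm φ (ENNReal.ofReal p) (volume.restrict (Metric.closedBall 0 1)) ≤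
        C * eLpNorm (fderiv ℝ φ) (ENNReal.ofReal p) volume := by
  have hp0 : 0 < p := by linarith
  have hN0 : 0 < N := by
    rcases Nat.eq_zero_or_pos N with h | h
    · rw [h] at hpN; norm_num at hpN; linarith
    · exact h
  have hfr : Module.finrank ℝ (Eu N) = N := by simp
  set q : ℝ := (p⁻¹ - (N : ℝ)⁻¹)⁻¹ with hq
  have hdiff : 0 < p⁻¹ - (N : ℝ)⁻¹ := by
    rw [sub_pos]; exact inv_strictAnti₀ hp0 hpN
  have hq0 : 0 < q := inv_pos.mpr hdiff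
  have hpq : p ≤ q := by
    rw [hq, le_inv_comm₀ hp0 hdiff]
    have : 0 < (N : ℝ)⁻¹ := by positivity
    linarith
  set μ : Measure (Eu N) := volume with hμ
  set B : Set (Eu N) := Metric.closedBall 0 1 with hB
  set Cs : ℝ≥0 := SNormLESNormFDerivOfEqConst ℝ μ (p.toNNReal : ℝ) with hCs
  refine ⟨Cs * (μ.restrict B) univ ^ (1 / p - 1 / q), ?_, fun E φ hφ => ?_⟩
  · refine ENNReal.mul_ne_top ENNReal.coe_ne_top (ENNReal.rpow_ne_top_of_nonneg ?_ ?_)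
    · rw [sub_nonneg]; exact one_div_le_one_div_of_le hp0 hpq
    · rw [Measure.restrict_apply_univ]
      exact (isCompact_closedBall (0 : Eu N) 1).measure_lt_top.ne
  · have h1 := eLpNorm_le_eLpNorm_fderiv_of_eq (μ := μ) (p := p.toNNReal) (p' := q.toNNReal)
      (hφ.1.of_le (by norm_num)) hφ.2.1 (by rw [Real.one_le_toNNReal]; exact hp.le)
      (by rw [hfr]; exact hN0)
      (by rw [Real.coe_toNNReal _ hq0.le, NNReal.coe_inv, Real.coe_toNNReal _ hp0.le, hfr, hq,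
        inv_inv])
    have h2 : eLpNorm φ (ENNReal.ofReal p) (μ.restrict B) ≤
        eLpNorm φ (ENNReal.ofReal q) (μ.restrict B) *
          (μ.restrict B) univ ^ (1 / p - 1 / q) := by
      have := eLpNorm_le_eLpNorm_mul_rpow_measure_univ (μ := μ.restrict B) (f := φ)
        (ENNReal.ofReal_le_ofReal hpq) hφ.1.continuous.aestronglyMeasurable
      rwa [P_toReal hp, ENNReal.toReal_ofReal hq0.le] at this
    have h3 : eLpNorm φ (ENNReal.ofReal q) (μ.restrict B) ≤ eLpNorm φ (ENNReal.ofReal q) μ :=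
      eLpNorm_mono_measure _ Measure.restrict_le_self
    calc eLpNorm φ (ENNReal.ofReal p) (μ.restrict B) ≤ _ := h2
      _ ≤ (Cs * eLpNorm (fderiv ℝ φ) (ENNReal.ofReal p) μ) *
          (μ.restrict B) univ ^ (1 / p - 1 / q) := by
        gcongr
        exact h3.trans h1
      _ = _ := by ring

end Pool.Agent.X104.CI
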