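import Pool.Agent.X104.CI.Unit

/-!
Comparison of the relative and the absolute capacitary inradius.
-/

set_option autoImplicit false
set_option linter.unusedSectionVars false

noncomputable section

open Filter Topology Set MeasureTheory
open scoped ENNReal ContDiff NNReal

namespace Pool.Agent.X104.CI

open Pool.Agent.X104.PS

variable {N : ℕ} {p : ℝ}

theorem cap_ball_sdiff (x : Eu N) {r : ℝ} (hr : 0 < r) (hp : 1 < p) (Ω E : Set (Eu N)) :
    cap p (Metric.closedBall 0 1 \ (aff x r ⁻¹' Ω)) (aff x r ⁻¹' E) =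
      s1 N p r * cap p (Metric.closedBall x r \ Ω) E := by
  have h := aff_closedBall x hr 1
  rw [mul_one] at h
  rw [← cap_aff _ _ x hr hp, preimage_sdiff, h]

theorem cap_ball (x : Eu N) {r : ℝ} (hr : 0 < r) (hp : 1 < p) (E : Set (Eu N)) :
    cap p (Metric.closedBall 0 1) (aff x r ⁻¹' E) = s1 N p r * cap p (Metric.closedBall x r) E := by
  have h := aff_closedBall x hr 1
  rw [mul_one] at h
  rw [← cap_aff _ _ x hr hp, h]

theorem upper (hp : 1 < p) (hpN : p < N) {γ : ℝ} (hγ0 : 0 < γ) (hγ : γ < 1) :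
    ∃ C : ℝ, 0 < C ∧ ∀ (E Ω : Set (Eu N)) (x : Eu N) (r : ℝ), 0 < r →
      Metric.ball x (2 * r) ⊆ E →
      cap p (Metric.closedBall x r \ Ω) E ≤ ENNReal.ofReal γ * cap p (Metric.closedBall x r) E →
      ∃ u, IsTest Ω u ∧ NmE p u ≠ 0 ∧
        ENNReal.ofReal (r ^ p) * EnE p u ≤ ENNReal.ofReal C * NmE p u := by
  obtain ⟨C, hC, h⟩ := upper_unit (N := N) hp hpN hγ0 hγ
  refine ⟨C, hC, fun E Ω x r hr hE hcap => ?_⟩
  have hE' : Metric.closedBall (0 : Eu N) (3 / 2) ⊆ aff x r ⁻¹' E := by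
    have h1 := aff_ball x hr 2
    rw [mul_comm r 2] at h1
    refine Subset.trans ?_ (preimage_mono hE)
    rw [h1]
    exact Metric.closedBall_subset_ball (by norm_num)
  have hcap' : cap p (Metric.closedBall 0 1 \ (aff x r ⁻¹' Ω)) (aff x r ⁻¹' E) ≤
      ENNReal.ofReal γ * cap p (Metric.closedBall 0 1) (aff x r ⁻¹' E) := by
    rw [cap_ball_sdiff x hr hp, cap_ball x hr hp]
    calc s1 N p r * cap p (Metric.closedBall x r \ Ω) E
        ≤ s1 N p r * (ENNReal.ofReal γ * cap p (Metric.closedBall x r) E) := by gcongr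
      _ = _ := by ring
  obtain ⟨u', hu', hn, hen⟩ := h _ _ hE' hcap'
  have hr' : 0 < r⁻¹ := inv_pos.mpr hr
  have hinv : ∀ y : Eu N, aff x r (aff (-(r⁻¹ • x)) r⁻¹ y) = y := by
    intro y
    simp only [aff]
    rw [smul_add, smul_neg, smul_smul, smul_smul, mul_inv_cancel₀ hr.ne', one_smul, one_smul]
    abel
  have hinv' : ∀ y : Eu N, aff (-(r⁻¹ • x)) r⁻¹ (aff x r y) = y := by
    intro y
    simp only [aff]
    rw [smul_add, smul_smul, inv_mul_cancel₀ hr.ne', one_smul]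
    abel
  set u : Eu N → ℝ := u' ∘ aff (-(r⁻¹ • x)) r⁻¹ with hu
  have hut : IsTest Ω u := by
    have h1 := test_aff hu' (-(r⁻¹ • x)) hr'.ne'
    have h2 : aff (-(r⁻¹ • x)) r⁻¹ ⁻¹' (aff x r ⁻¹' Ω) = Ω := by
      ext y; simp only [mem_preimage, hinv]
    rwa [h2] at h1
  have huu : u ∘ aff x r = u' := by
    funext y; simp only [hu, Function.comp_apply, hinv']
  rw [← huu, NmE_aff hut x hr] at hn hen
  rw [EnE_aff hut x hr hp, s1, ENNReal.ofReal_mul (by positivity)] at hen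
  set i : ℝ≥0∞ := ENNReal.ofReal ((r ^ N)⁻¹) with hi
  have hi0 : i ≠ 0 := by rw [hi, Ne, ENNReal.ofReal_eq_zero, not_le]; positivity
  have hit : i ≠ ⊤ := ENNReal.ofReal_ne_top
  refine ⟨u, hut, right_ne_zero_of_mul hn, ?_⟩
  have h4 : i * (ENNReal.ofReal (r ^ p) * EnE p u) ≤ i * (ENNReal.ofReal C * NmE p u) := by
    calc i * (ENNReal.ofReal (r ^ p) * EnE p u) = ENNReal.ofReal (r ^ p) * i * EnE p u := by ring
      _ ≤ _ := hen
      _ = _ := by ring
  exact (ENNReal.mul_le_mul_iff_right hi0 hit).mp h4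

theorem key (hp : 1 < p) (hpN : p < N) {γ : ℝ} (hγ0 : 0 < γ) (hγ : γ < 1) :
    ∃ c : ℝ, 0 < c ∧ ∀ (Ω : Set (Eu N)) (D D' : Eu N → ℝ → Set (Eu N)),
      (∀ x r, Metric.ball x (2 * r) ⊆ D x r) → (∀ x r, Metric.ball x (2 * r) ⊆ D' x r) →
      ∀ r, 0 < r → (∃ x, cap p (Metric.closedBall x r \ Ω) (D x r) ≤
        ENNReal.ofReal γ * cap p (Metric.closedBall x r) (D x r)) →
      ∃ x, cap p (Metric.closedBall x (c * r) \ Ω) (D' x (c * r)) ≤
        ENNReal.ofReal γ * cap p (Metric.closedBall x (c * r)) (D' x (c * r)) := by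
  have hp0 : 0 < p := by linarith
  obtain ⟨CA, hCA, hA⟩ := upper (N := N) hp hpN hγ0 hγ
  obtain ⟨CB, hCB, hB⟩ := lower (N := N) hp
  obtain ⟨c0, hc0, hcap0⟩ := cap_unit_pos (N := N) hp hpN
  set K : ℝ := γ * c0 / (2 * (CB.toReal * CA + 1)) with hK
  have hCBn : 0 ≤ CB.toReal := ENNReal.toReal_nonneg
  have hK0 : 0 < K := by positivity
  set c : ℝ := K ^ (1 / p) with hc
  have hc0' : 0 < c := by positivity
  have hcp : c ^ p = K := by
    rw [hc, ← Real.rpow_mul hK0.le, one_div_mul_cancel hp0.ne', Real.rpow_one]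
  refine ⟨c, hc0', fun Ω D D' hD hD' r hr ⟨x0, hx0⟩ => ?_⟩
  by_contra hcon
  push Not at hcon
  obtain ⟨u, hu, hn, hen⟩ := hA _ Ω x0 r hr (hD x0 r) hx0
  have hcr : 0 < c * r := by positivity
  have hκ : ∀ x, ENNReal.ofReal (γ * c0) ≤ s1 N p (c * r) *
      cap p (Metric.closedBall x (c * r) \ Ω) (Metric.ball x (2 * (c * r))) := by
    intro x
    calc ENNReal.ofReal (γ * c0) = ENNReal.ofReal γ * ENNReal.ofReal c0 :=
          ENNReal.ofReal_mul hγ0.le
      _ ≤ ENNReal.ofReal γ * cap p (Metric.closedBall 0 1) (aff x (c * r) ⁻¹' D' x (c * r)) := by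
          gcongr; exact hcap0 _
      _ = s1 N p (c * r) * (ENNReal.ofReal γ *
            cap p (Metric.closedBall x (c * r)) (D' x (c * r))) := by
          rw [cap_ball x hcr hp]; ring
      _ ≤ s1 N p (c * r) * cap p (Metric.closedBall x (c * r) \ Ω) (D' x (c * r)) := by
          gcongr; exact (hcon x).le
      _ ≤ _ := by gcongr; exact cap_mono_E (hD' x (c * r))
  have h1 := hB Ω _ (c * r) hcr hκ u hu
  have hnt : NmE p u ≠ ⊤ := by
    rw [NmE_nm hp hu]; exact ENNReal.ofReal_ne_top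
  have h2 : ENNReal.ofReal (γ * c0) * NmE p u ≤
      ENNReal.ofReal (CB.toReal * (K * CA)) * NmE p u := by
    calc ENNReal.ofReal (γ * c0) * NmE p u ≤ CB * (ENNReal.ofReal ((c * r) ^ p) * EnE p u) := h1
      _ = CB * (ENNReal.ofReal K * (ENNReal.ofReal (r ^ p) * EnE p u)) := by
          rw [Real.mul_rpow hc0'.le hr.le, hcp, ENNReal.ofReal_mul hK0.le, mul_assoc]
      _ ≤ CB * (ENNReal.ofReal K * (ENNReal.ofReal CA * NmE p u)) := by gcongr
      _ = _ := by
          rw [ENNReal.ofReal_mul hCBn, ENNReal.ofReal_mul hK0.le, ENNReal.ofReal_toReal hCB]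
          ring
  have h3 := (ENNReal.mul_le_mul_iff_left hn hnt).mp h2
  have h4 := (ENNReal.ofReal_le_ofReal_iff (by positivity)).mp h3
  have h5 : CB.toReal * (K * CA) < γ * c0 := by
    have h6 : K * (2 * (CB.toReal * CA + 1)) = γ * c0 := by rw [hK]; field_simp
    have h7 : 0 ≤ CB.toReal * CA := by positivity
    nlinarith
  linarith

/-- the set of admissible radii and the inradius for a choice `D x r` of the outer set -/
def RadD (p γ : ℝ) (Ω : Set (Eu N)) (D : Eu N → ℝ → Set (Eu N)) : ℝ≥0∞ :=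
  ⨆ (r : ℝ) (_ : 0 < r) (_ : ∃ x, cap p (Metric.closedBall x r \ Ω) (D x r) ≤
    ENNReal.ofReal γ * cap p (Metric.closedBall x r) (D x r)), ENNReal.ofReal r

theorem compare (hp : 1 < p) (hpN : p < N) {γ : ℝ} (hγ0 : 0 < γ) (hγ : γ < 1) :
    ∃ c : ℝ, 0 < c ∧ ∀ (Ω : Set (Eu N)) (D D' : Eu N → ℝ → Set (Eu N)),
      (∀ x r, Metric.ball x (2 * r) ⊆ D x r) → (∀ x r, Metric.ball x (2 * r) ⊆ D' x r) →
      ENNReal.ofReal c * RadD p γ Ω D ≤ RadD p γ Ω D' := by
  obtain ⟨c, hc, h⟩ := key (N := N) hp hpN hγ0 hγ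
  refine ⟨c, hc, fun Ω D D' hD hD' => ?_⟩
  have h1 : RadD p γ Ω D ≤ ENNReal.ofReal c⁻¹ * RadD p γ Ω D' := by
    refine iSup_le fun r => iSup_le fun hr => iSup_le fun hx => ?_
    have h2 := h Ω D D' hD hD' r hr hx
    have h3 : ENNReal.ofReal (c * r) ≤ RadD p γ Ω D' :=
      le_iSup_of_le (c * r) (le_iSup_of_le (by positivity) (le_iSup_of_le h2 le_rfl))
    calc ENNReal.ofReal r = ENNReal.ofReal c⁻¹ * ENNReal.ofReal (c * r) := by
          rw [← ENNReal.ofReal_mul (by positivity), ← mul_assoc, inv_mul_cancel₀ hc.ne', one_mul]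
      _ ≤ _ := by gcongr
  calc ENNReal.ofReal c * RadD p γ Ω D
      ≤ ENNReal.ofReal c * (ENNReal.ofReal c⁻¹ * RadD p γ Ω D') := by gcongr
    _ = RadD p γ Ω D' := by
      rw [← mul_assoc, ← ENNReal.ofReal_mul hc.le, mul_inv_cancel₀ hc.ne', ENNReal.ofReal_one,
        one_mul]

end Pool.Agent.X104.CI
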