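import Pool.Agent.X104.CI.Basic

/-!
Maz'ya's Poincaré inequality from a lower bound of the capacity of all balls.
-/

set_option autoImplicit false
set_option linter.unusedSectionVars false

noncomputable section

open Filter Topology Set MeasureTheory
open scoped ENNReal ContDiff NNReal

namespace Pool.Agent.X104.CI

open Pool.Agent.X104.PS

variable {N : ℕ} {p : ℝ}

theorem fd_zero {φ : Eu N → ℝ} {x : Eu N} (hx : x ∉ tsupport φ) : fderiv ℝ φ x = 0 := by
  by_contra h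
  exact hx (support_fderiv_subset ℝ (Function.mem_support.mpr h))

theorem mul_test {E : Set (Eu N)} {η g : Eu N → ℝ} (h : IsTest E η) (hg : ContDiff ℝ ∞ g) :
    IsTest E (fun x => η x * g x) := by
  have hs : Function.support (fun x => η x * g x) ⊆ Function.support η := by
    intro x hx hx'
    exact hx (by show η x * g x = 0; rw [hx', zero_mul])
  exact ⟨h.1.mul hg, h.2.1.mono hs, (closure_mono hs).trans h.2.2⟩

/-- translated bump function -/
def bp (x : Eu N) (f0 : ContDiffBump (0 : Eu N)) (y : Eu N) : ℝ := f0 (y - x)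

theorem bp_test (x : Eu N) (f0 : ContDiffBump (0 : Eu N)) {R : ℝ} (hR : f0.rOut < R) :
    IsTest (Metric.ball x R) (bp x f0) := by
  have h1 : bp x f0 = (f0 : Eu N → ℝ) ∘ (Homeomorph.subRight x) := rfl
  refine ⟨?_, ?_, ?_⟩
  · exact f0.contDiff.comp (contDiff_id.sub contDiff_const)
  · rw [h1]; exact f0.hasCompactSupport.comp_homeomorph _
  · rw [h1, tsupport_comp_eq_preimage, f0.tsupport_eq]
    intro y hy
    have h2 : ‖y - x‖ ≤ f0.rOut := by
      have h3 : (y - x) ∈ Metric.closedBall (0 : Eu N) f0.rOut := hy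
      rwa [mem_closedBall_zero_iff] at h3
    rw [Metric.mem_ball, dist_eq_norm]
    linarith

theorem bump_bound (f0 : ContDiffBump (0 : Eu N)) : ∃ M : ℝ, 0 < M ∧ ∀ x, ‖fderiv ℝ f0 x‖ ≤ M := by
  have hc : Continuous (fderiv ℝ (f0 : Eu N → ℝ)) :=
    (f0.contDiff (n := 1)).continuous_fderiv (by norm_num)
  obtain ⟨C, hC⟩ := hc.bounded_above_of_compact_support (f0.hasCompactSupport.fderiv ℝ)
  exact ⟨|C| + 1, by positivity, fun x => (hC x).trans (by linarith [le_abs_self C])⟩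

theorem fd_bp (x : Eu N) (f0 : ContDiffBump (0 : Eu N)) (y : Eu N) :
    fderiv ℝ (bp x f0) y = fderiv ℝ f0 (y - x) := by
  have h1 : HasFDerivAt (fun y : Eu N => y - x) (ContinuousLinearMap.id ℝ (Eu N)) y :=
    (hasFDerivAt_id y).sub_const x
  have h2 : HasFDerivAt (f0 : Eu N → ℝ) (fderiv ℝ f0 (y - x)) (y - x) :=
    ((f0.contDiff (n := 1)).differentiable (by norm_num) _).hasFDerivAt
  exact (h2.comp y h1).fderiv

theorem unit_lower (hp : 1 < p) : ∃ C : ℝ≥0∞, C ≠ ⊤ ∧ ∀ (Ω : Set (Eu N)) (κ : ℝ≥0∞),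
    (∀ x, κ ≤ cap p (Metric.closedBall x 1 \ Ω) (Metric.ball x 2)) →
    ∀ u, IsTest Ω u → κ * NmE p u ≤ C * EnE p u := by
  have hp0 : 0 < p := by linarith
  set f0 : ContDiffBump (0 : Eu N) := ⟨1, 3 / 2, by norm_num, by norm_num⟩ with hf0
  obtain ⟨M, hM0, hM⟩ := bump_bound f0
  set c : ℝ≥0∞ := 2 ^ (p - 1) with hc
  have hct : c ≠ ⊤ := ENNReal.rpow_ne_top_of_nonneg (by linarith) (by norm_num)
  set m : ℝ≥0∞ := ENNReal.ofReal M ^ p with hm
  have hmt : m ≠ ⊤ := ENNReal.rpow_ne_top_of_nonneg hp0.le ENNReal.ofReal_ne_top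
  have h2t : (2 : ℝ≥0∞) ^ p ≠ ⊤ := ENNReal.rpow_ne_top_of_nonneg hp0.le (by norm_num)
  refine ⟨c * (m * 2 ^ p + 1) * volume (Metric.ball (0 : Eu N) 2), ?_, ?_⟩
  · refine ENNReal.mul_ne_top (ENNReal.mul_ne_top hct (ENNReal.add_ne_top.mpr
      ⟨ENNReal.mul_ne_top hmt h2t, ENNReal.one_ne_top⟩)) ?_
    exact measure_ball_lt_top.ne
  intro Ω κ hκ u hu
  have hud := hu.diff
  have hufc : Continuous (fderiv ℝ u) := hu.1.continuous_fderiv (by norm_num)
  -- pointwise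
  have hpt : ∀ x, κ * ‖u x‖ₑ ^ p ≤ ∫⁻ h, (Metric.ball (0 : Eu N) 2).indicator
      (fun h => c * (m * ‖u (x + h) - u x‖ₑ ^ p + ‖fderiv ℝ u (x + h)‖ₑ ^ p)) h := by
    intro x
    by_cases hx : u x = 0
    · rw [hx, enorm_zero, ENNReal.zero_rpow_of_pos hp0, mul_zero]; exact zero_le
    set ψ' : Eu N → ℝ := fun y => bp x f0 y * (u x - u y) with hψ'
    have hbt : IsTest (Metric.ball x 2) (bp x f0) := bp_test x f0 (by show (3 / 2 : ℝ) < 2; norm_num)
    have hψ't : IsTest (Metric.ball x 2) ψ' := mul_test hbt (contDiff_const.sub hu.1)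
    have hψt := hψ't.smul (u x)⁻¹
    have h1 : κ ≤ EnE p ((u x)⁻¹ • ψ') := by
      refine (hκ x).trans (cap_le hψt fun y hy => ?_)
      have hy0 : u y = 0 := image_eq_zero_of_notMem_tsupport fun h => hy.2 (hu.2.2 h)
      have hb1 : bp x f0 y = 1 := by
        refine f0.one_of_mem_closedBall ?_
        rw [mem_closedBall_zero_iff]
        show ‖y - x‖ ≤ 1
        rw [← dist_eq_norm]; exact hy.1
      show 1 ≤ (u x)⁻¹ * (bp x f0 y * (u x - u y))
      rw [hy0, hb1, sub_zero, one_mul, inv_mul_cancel₀ hx]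
    have h2 : EnE p ((u x)⁻¹ • ψ') = ‖(u x)⁻¹‖ₑ ^ p * EnE p ψ' := by
      unfold EnE
      have : ∀ y, ‖fderiv ℝ ((u x)⁻¹ • ψ') y‖ₑ ^ p = ‖(u x)⁻¹‖ₑ ^ p * ‖fderiv ℝ ψ' y‖ₑ ^ p := by
        intro y
        rw [fderiv_const_smul (hψ't.diff y), enorm_smul, ENNReal.mul_rpow_of_nonneg _ _ hp0.le]
      simp_rw [this]
      rw [lintegral_const_mul' _ _ (ENNReal.rpow_ne_top_of_nonneg hp0.le enorm_ne_top)]
    have h3 : κ * ‖u x‖ₑ ^ p ≤ EnE p ψ' := by
      have h4 : ‖(u x)⁻¹‖ₑ ^ p * ‖u x‖ₑ ^ p = 1 := by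
        rw [← ENNReal.mul_rpow_of_nonneg _ _ hp0.le, ← enorm_mul, inv_mul_cancel₀ hx]
        simp
      calc κ * ‖u x‖ₑ ^ p ≤ (‖(u x)⁻¹‖ₑ ^ p * EnE p ψ') * ‖u x‖ₑ ^ p := by
            rw [← h2]; gcongr
        _ = (‖(u x)⁻¹‖ₑ ^ p * ‖u x‖ₑ ^ p) * EnE p ψ' := by ring
        _ = _ := by rw [h4, one_mul]
    refine h3.trans ?_
    have h5 : EnE p ψ' = ∫⁻ h, ‖fderiv ℝ ψ' (x + h)‖ₑ ^ p :=
      (lintegral_add_left_eq_self (fun y => ‖fderiv ℝ ψ' y‖ₑ ^ p) x).symm
    rw [h5]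
    refine lintegral_mono fun h => ?_
    by_cases hh : h ∈ Metric.ball (0 : Eu N) 2
    · rw [indicator_of_mem hh]
      have hd : fderiv ℝ ψ' (x + h) = bp x f0 (x + h) • (-(fderiv ℝ u (x + h))) +
          (u x - u (x + h)) • fderiv ℝ (bp x f0) (x + h) := by
        have a1 : HasFDerivAt (bp x f0) (fderiv ℝ (bp x f0) (x + h)) (x + h) :=
          (hbt.diff _).hasFDerivAt
        have a2 : HasFDerivAt (fun y => u x - u y) (-(fderiv ℝ u (x + h))) (x + h) :=
          (hud _).hasFDerivAt.const_sub (u x)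
        exact (a1.mul a2).fderiv
      have hn : ‖fderiv ℝ ψ' (x + h)‖ₑ ≤ ENNReal.ofReal M * ‖u (x + h) - u x‖ₑ +
          ‖fderiv ℝ u (x + h)‖ₑ := by
        have hnr : ‖fderiv ℝ ψ' (x + h)‖ ≤ M * ‖u (x + h) - u x‖ + ‖fderiv ℝ u (x + h)‖ := by
          rw [hd]
          refine (norm_add_le _ _).trans ?_
          rw [norm_smul, norm_smul, norm_neg, add_comm]
          have b1 : ‖bp x f0 (x + h)‖ ≤ 1 := by
            rw [Real.norm_eq_abs, abs_of_nonneg (show 0 ≤ bp x f0 (x + h) from f0.nonneg)]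
            exact f0.le_one
          have b2 : ‖fderiv ℝ (bp x f0) (x + h)‖ ≤ M := by
            rw [fd_bp]; exact hM _
          have b3 : ‖u x - u (x + h)‖ = ‖u (x + h) - u x‖ := norm_sub_rev _ _
          rw [b3]
          calc ‖u (x + h) - u x‖ * ‖fderiv ℝ (bp x f0) (x + h)‖ +
              ‖bp x f0 (x + h)‖ * ‖fderiv ℝ u (x + h)‖
              ≤ ‖u (x + h) - u x‖ * M + 1 * ‖fderiv ℝ u (x + h)‖ := by gcongr
            _ = _ := by rw [one_mul, mul_comm]
        rw [← ofReal_norm, ← ofReal_norm (x := u (x + h) - u x),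
          ← ofReal_norm (x := fderiv ℝ u (x + h)),
          ← ENNReal.ofReal_mul hM0.le, ← ENNReal.ofReal_add (by positivity) (by positivity)]
        exact ENNReal.ofReal_le_ofReal hnr
      calc ‖fderiv ℝ ψ' (x + h)‖ₑ ^ p ≤ (ENNReal.ofReal M * ‖u (x + h) - u x‖ₑ +
          ‖fderiv ℝ u (x + h)‖ₑ) ^ p := ENNReal.rpow_le_rpow hn hp0.le
        _ ≤ c * ((ENNReal.ofReal M * ‖u (x + h) - u x‖ₑ) ^ p + ‖fderiv ℝ u (x + h)‖ₑ ^ p) :=
            ENNReal.rpow_add_le_mul_rpow_add_rpow _ _ hp.le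
        _ = _ := by rw [ENNReal.mul_rpow_of_nonneg _ _ hp0.le]
    · rw [indicator_of_notMem hh]
      have h6 : x + h ∉ tsupport ψ' := by
        intro h7
        have h8 := hψ't.2.2 h7
        rw [Metric.mem_ball, dist_eq_norm, add_sub_cancel_left] at h8
        exact hh (by rw [mem_ball_zero_iff]; exact h8)
      have h7 : ‖fderiv ℝ ψ' (x + h)‖ₑ = 0 := by
        rw [fd_zero h6, ← ofReal_norm, norm_zero, ENNReal.ofReal_zero]
      rw [h7, ENNReal.zero_rpow_of_pos hp0]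
  have hmeas : Measurable (Function.uncurry fun (x h : Eu N) => (Metric.ball (0 : Eu N) 2).indicator
      (fun h => c * (m * ‖u (x + h) - u x‖ₑ ^ p + ‖fderiv ℝ u (x + h)‖ₑ ^ p)) h) := by
    have h1 : (Function.uncurry fun (x h : Eu N) => (Metric.ball (0 : Eu N) 2).indicator
      (fun h => c * (m * ‖u (x + h) - u x‖ₑ ^ p + ‖fderiv ℝ u (x + h)‖ₑ ^ p)) h) =
      (Prod.snd ⁻¹' (Metric.ball (0 : Eu N) 2)).indicator (fun z : Eu N × Eu N =>
        c * (m * ‖u (z.1 + z.2) - u z.1‖ₑ ^ p + ‖fderiv ℝ u (z.1 + z.2)‖ₑ ^ p)) := by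
      funext z
      obtain ⟨x, h⟩ := z
      by_cases hh : h ∈ Metric.ball (0 : Eu N) 2
      · rw [indicator_of_mem (show (x, h) ∈ Prod.snd ⁻¹' Metric.ball (0 : Eu N) 2 from hh)]
        exact indicator_of_mem hh (fun h => c * (m * ‖u (x + h) - u x‖ₑ ^ p + ‖fderiv ℝ u (x + h)‖ₑ ^ p))
      · rw [indicator_of_notMem (show (x, h) ∉ Prod.snd ⁻¹' Metric.ball (0 : Eu N) 2 from hh)]
        exact indicator_of_notMem hh (fun h => c * (m * ‖u (x + h) - u x‖ₑ ^ p + ‖fderiv ℝ u (x + h)‖ₑ ^ p))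
    rw [h1]
    refine Measurable.indicator ?_ (measurable_snd measurableSet_ball)
    have hc1 : Continuous fun z : Eu N × Eu N => u (z.1 + z.2) - u z.1 := by
      have := hu.1.continuous
      fun_prop
    have hc2 : Continuous fun z : Eu N × Eu N => fderiv ℝ u (z.1 + z.2) :=
      hufc.comp (by fun_prop)
    exact (((hc1.measurable.enorm.pow_const p).const_mul m).add
      (hc2.measurable.enorm.pow_const p)).const_mul c
  calc κ * NmE p u = ∫⁻ x, κ * ‖u x‖ₑ ^ p := by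
        rw [lintegral_const_mul κ (meas_f hu)]; rfl
    _ ≤ ∫⁻ x, ∫⁻ h, (Metric.ball (0 : Eu N) 2).indicator
      (fun h => c * (m * ‖u (x + h) - u x‖ₑ ^ p + ‖fderiv ℝ u (x + h)‖ₑ ^ p)) h :=
        lintegral_mono hpt
    _ = ∫⁻ h, ∫⁻ x, (Metric.ball (0 : Eu N) 2).indicator
      (fun h => c * (m * ‖u (x + h) - u x‖ₑ ^ p + ‖fderiv ℝ u (x + h)‖ₑ ^ p)) h :=
        lintegral_lintegral_swap hmeas.aemeasurable
    _ ≤ ∫⁻ h, (Metric.ball (0 : Eu N) 2).indicator
      (fun _ => c * (m * 2 ^ p + 1) * EnE p u) h := by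
        refine lintegral_mono fun h => ?_
        by_cases hh : h ∈ Metric.ball (0 : Eu N) 2
        · simp only [indicator_of_mem hh]
          have hm1 : Measurable fun x => ‖u (x + h) - u x‖ₑ ^ p := by
            have : Continuous fun x : Eu N => u (x + h) - u x := by
              have := hu.1.continuous
              fun_prop
            exact this.measurable.enorm.pow_const p
          have hh2 : ‖h‖ₑ ^ p ≤ 2 ^ p := by
            refine ENNReal.rpow_le_rpow ?_ hp0.le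
            rw [mem_ball_zero_iff] at hh
            rw [← ofReal_norm]
            calc ENNReal.ofReal ‖h‖ ≤ ENNReal.ofReal 2 := ENNReal.ofReal_le_ofReal hh.le
              _ = 2 := by norm_num
          have hE : ∫⁻ x, ‖fderiv ℝ u (x + h)‖ₑ ^ p = EnE p u :=
            lintegral_add_right_eq_self (fun x => ‖fderiv ℝ u x‖ₑ ^ p) h
          rw [lintegral_const_mul' _ _ hct, lintegral_add_left (hm1.const_mul m),
            lintegral_const_mul' _ _ hmt, hE]
          have hT : ∫⁻ x, ‖u (x + h) - u x‖ₑ ^ p ≤ 2 ^ p * EnE p u :=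
            (trans_est hu hp h).trans (by gcongr)
          calc c * (m * (∫⁻ x, ‖u (x + h) - u x‖ₑ ^ p) + EnE p u)
              ≤ c * (m * (2 ^ p * EnE p u) + EnE p u) := by gcongr
            _ = _ := by ring
        · simp only [indicator_of_notMem hh, lintegral_zero, le_refl]
    _ = _ := by
        rw [lintegral_indicator measurableSet_ball, setLIntegral_const]
        ring

theorem lower (hp : 1 < p) : ∃ C : ℝ≥0∞, C ≠ ⊤ ∧ ∀ (Ω : Set (Eu N)) (κ : ℝ≥0∞) (ρ : ℝ), 0 < ρ →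
    (∀ x, κ ≤ s1 N p ρ * cap p (Metric.closedBall x ρ \ Ω) (Metric.ball x (2 * ρ))) →
    ∀ u, IsTest Ω u → κ * NmE p u ≤ C * (ENNReal.ofReal (ρ ^ p) * EnE p u) := by
  obtain ⟨C, hC, h⟩ := unit_lower (N := N) hp
  refine ⟨C, hC, fun Ω κ ρ hρ hκ u hu => ?_⟩
  have h1 : ∀ x, κ ≤ cap p (Metric.closedBall x 1 \ (aff 0 ρ ⁻¹' Ω)) (Metric.ball x 2) := by
    intro x
    have h2 := hκ (ρ • x)
    rw [← cap_aff _ _ 0 hρ hp] at h2
    have e1 : aff 0 ρ ⁻¹' (Metric.closedBall (ρ • x) ρ \ Ω) =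
        Metric.closedBall x 1 \ (aff 0 ρ ⁻¹' Ω) := by
      rw [preimage_sdiff]
      congr 1
      ext y
      simp only [mem_preimage, Metric.mem_closedBall, dist_eq_norm, aff, zero_add, ← smul_sub,
        norm_smul, Real.norm_eq_abs, abs_of_pos hρ]
      constructor
      · intro h; nlinarith
      · intro h; nlinarith
    have e2 : aff 0 ρ ⁻¹' (Metric.ball (ρ • x) (2 * ρ)) = Metric.ball x 2 := by
      ext y
      simp only [mem_preimage, Metric.mem_ball, dist_eq_norm, aff, zero_add, ← smul_sub,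
        norm_smul, Real.norm_eq_abs, abs_of_pos hρ]
      constructor
      · intro h; nlinarith
      · intro h; nlinarith
    rw [e1, e2] at h2
    exact h2
  have h3 := h _ κ h1 _ (test_aff hu 0 hρ.ne')
  rw [NmE_aff hu 0 hρ, EnE_aff hu 0 hρ hp, s1, ENNReal.ofReal_mul (by positivity)] at h3
  set i : ℝ≥0∞ := ENNReal.ofReal ((ρ ^ N)⁻¹) with hi
  have hi0 : i ≠ 0 := by rw [hi, Ne, ENNReal.ofReal_eq_zero, not_le]; positivity
  have hit : i ≠ ⊤ := ENNReal.ofReal_ne_top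
  have h4 : i * (κ * NmE p u) ≤ i * (C * (ENNReal.ofReal (ρ ^ p) * EnE p u)) := by
    calc i * (κ * NmE p u) = κ * (i * NmE p u) := by ring
      _ ≤ _ := h3
      _ = _ := by ring
  exact (ENNReal.mul_le_mul_iff_right hi0 hit).mp h4

end Pool.Agent.X104.CI
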