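import Pool.Agent.X104.CI.Upper

/-!
Upper bound of the Poincaré constant: the test function.
-/

set_option autoImplicit false
set_option linter.unusedSectionVars false

noncomputable section

open Filter Topology Set MeasureTheory
open scoped ENNReal ContDiff NNReal

namespace Pool.Agent.X104.CI

open Pool.Agent.X104.PS

variable {N : ℕ} {p : ℝ}

/-! ### the norm -/

section
variable {F G1 G2 G3 : Type*} [NormedAddCommGroup F] [NormedAddCommGroup G1]
  [NormedAddCommGroup G2] [NormedAddCommGroup G3]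

def nm (p : ℝ) (f : Eu N → F) : ℝ := (eLpNorm f (ENNReal.ofReal p) volume).toReal

theorem nm_nonneg (f : Eu N → F) : 0 ≤ nm p f := ENNReal.toReal_nonneg

theorem one_le_P (hp : 1 < p) : 1 ≤ ENNReal.ofReal p := by
  rw [← ENNReal.ofReal_one]; exact ENNReal.ofReal_le_ofReal hp.le

theorem nm_mono {f : Eu N → F} {g : Eu N → G1} (hg : MemLp g (ENNReal.ofReal p) volume)
    (h : ∀ x, ‖f x‖ ≤ ‖g x‖) : nm p f ≤ nm p g :=
  ENNReal.toReal_mono hg.eLpNorm_ne_top (eLpNorm_mono h)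

theorem nm_add (hp : 1 < p) {f g : Eu N → F} (hf : MemLp f (ENNReal.ofReal p) volume)
    (hg : MemLp g (ENNReal.ofReal p) volume) : nm p (f + g) ≤ nm p f + nm p g := by
  unfold nm
  rw [← ENNReal.toReal_add hf.eLpNorm_ne_top hg.eLpNorm_ne_top]
  exact ENNReal.toReal_mono (ENNReal.add_ne_top.mpr ⟨hf.eLpNorm_ne_top, hg.eLpNorm_ne_top⟩)
    (eLpNorm_add_le hf.1 hg.1 (one_le_P hp))

theorem nm_smul {c : ℝ} (hc : 0 ≤ c) (f : Eu N → ℝ) : nm p (c • f) = c * nm p f := by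
  unfold nm
  rw [eLpNorm_const_smul, ENNReal.toReal_mul, toReal_enorm, Real.norm_eq_abs, abs_of_nonneg hc]

theorem nm_norm (f : Eu N → F) : nm p (fun x => ‖f x‖) = nm p f := by
  unfold nm; rw [eLpNorm_norm]

theorem nm3 (hp : 1 < p) {f : Eu N → F} {g1 : Eu N → G1} {g2 : Eu N → G2} {g3 : Eu N → G3}
    (h1 : MemLp g1 (ENNReal.ofReal p) volume) (h2 : MemLp g2 (ENNReal.ofReal p) volume)
    (h3 : MemLp g3 (ENNReal.ofReal p) volume) {c2 c3 : ℝ} (hc2 : 0 ≤ c2) (hc3 : 0 ≤ c3)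
    (h : ∀ x, ‖f x‖ ≤ ‖g1 x‖ + c2 * ‖g2 x‖ + c3 * ‖g3 x‖) :
    nm p f ≤ nm p g1 + c2 * nm p g2 + c3 * nm p g3 := by
  have k1 : MemLp (fun x => ‖g1 x‖) (ENNReal.ofReal p) volume := h1.norm
  have k2 : MemLp (c2 • fun x => ‖g2 x‖) (ENNReal.ofReal p) volume := h2.norm.const_smul c2
  have k3 : MemLp (c3 • fun x => ‖g3 x‖) (ENNReal.ofReal p) volume := h3.norm.const_smul c3
  have e1 : nm p f ≤ nm p ((fun x => ‖g1 x‖) + (c2 • fun x => ‖g2 x‖) + (c3 • fun x => ‖g3 x‖)) := by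
    refine nm_mono ((k1.add k2).add k3) fun x => (h x).trans (le_of_eq ?_)
    show ‖g1 x‖ + c2 * ‖g2 x‖ + c3 * ‖g3 x‖ = ‖‖g1 x‖ + c2 * ‖g2 x‖ + c3 * ‖g3 x‖‖
    rw [Real.norm_eq_abs, abs_of_nonneg (by positivity)]
  refine e1.trans ((nm_add hp (k1.add k2) k3).trans ?_)
  have e2 := nm_add hp k1 k2
  rw [nm_norm, nm_smul hc2, nm_norm] at e2
  rw [nm_smul hc3, nm_norm]
  linarith

theorem nm_rpow (hp : 1 < p) {f : Eu N → F} (hf : MemLp f (ENNReal.ofReal p) volume) :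
    ∫⁻ x, ‖f x‖ₑ ^ p = ENNReal.ofReal (nm p f ^ p) := by
  have hp0 : 0 < p := by linarith
  unfold nm
  rw [← ENNReal.ofReal_rpow_of_nonneg ENNReal.toReal_nonneg hp0.le,
    ENNReal.ofReal_toReal hf.eLpNorm_ne_top, lint_eLp hp, ← ENNReal.rpow_mul,
    one_div_mul_cancel hp0.ne', ENNReal.rpow_one]

end

theorem mem_fd {E : Set (Eu N)} {φ : Eu N → ℝ} (h : IsTest E φ) :
    MemLp (fderiv ℝ φ) (ENNReal.ofReal p) volume :=
  (h.1.continuous_fderiv (by norm_num)).memLp_of_hasCompactSupport (h.2.1.fderiv ℝ)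

theorem mem_f {E : Set (Eu N)} {φ : Eu N → ℝ} (h : IsTest E φ) :
    MemLp φ (ENNReal.ofReal p) volume :=
  h.1.continuous.memLp_of_hasCompactSupport h.2.1

theorem EnE_nm (hp : 1 < p) {E : Set (Eu N)} {φ : Eu N → ℝ} (h : IsTest E φ) :
    EnE p φ = ENNReal.ofReal (nm p (fderiv ℝ φ) ^ p) := nm_rpow hp (mem_fd h)

theorem NmE_nm (hp : 1 < p) {E : Set (Eu N)} {φ : Eu N → ℝ} (h : IsTest E φ) :
    NmE p φ = ENNReal.ofReal (nm p φ ^ p) := nm_rpow hp (mem_f h)

/-! ### the cut-off function -/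

theorem gg_le {r : ℝ} (hr : 0 ≤ r) : gg r ≤ r := by
  have h1 : gg r ≤ ∫ _s in (0 : ℝ)..r, (1 : ℝ) :=
    intervalIntegral.integral_mono_on hr (sT_cont.intervalIntegrable 0 r)
      (intervalIntegrable_const) (fun x _ => Real.smoothTransition.le_one x)
  simpa using h1

theorem gg_ge (r : ℝ) : r - 1 ≤ gg r := by
  rcases le_total r 1 with h | h
  · linarith [gg_nonneg r]
  · have h1 : gg r = gg 1 + ∫ s in (1 : ℝ)..r, Real.smoothTransition s :=
      (intervalIntegral.integral_add_adjacent_intervals (sT_cont.intervalIntegrable 0 1)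
        (sT_cont.intervalIntegrable 1 r)).symm
    have h2 : ∫ s in (1 : ℝ)..r, Real.smoothTransition s = r - 1 := by
      rw [intervalIntegral.integral_congr (g := fun _ => (1 : ℝ))]
      · simp
      · intro x hx
        rw [uIcc_of_le h] at hx
        exact Real.smoothTransition.one_of_one_le hx.1
    rw [h1, h2]; linarith [gg_nonneg 1]

def Hf (δ t : ℝ) : ℝ := δ * gg (t / δ - 1)

theorem Hf_deriv {δ : ℝ} (hδ : 0 < δ) (t : ℝ) :
    HasDerivAt (Hf δ) (Real.smoothTransition (t / δ - 1)) t := by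
  have h1 : HasDerivAt (fun t : ℝ => t / δ - 1) (1 / δ) t :=
    ((hasDerivAt_id t).div_const δ).sub_const 1
  have h2 := ((gg_hasDeriv (t / δ - 1)).comp t h1).const_mul δ
  have h3 : δ * (Real.smoothTransition (t / δ - 1) * (1 / δ)) =
      Real.smoothTransition (t / δ - 1) := by field_simp
  rw [h3] at h2
  exact h2

theorem Hf_smooth {δ : ℝ} : ContDiff ℝ ∞ (Hf δ) :=
  contDiff_const.mul (gg_smooth.comp (by fun_prop))

theorem Hf_nonneg {δ : ℝ} (hδ : 0 < δ) (t : ℝ) : 0 ≤ Hf δ t := mul_nonneg hδ.le (gg_nonneg _)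

theorem Hf_zero {δ t : ℝ} (hδ : 0 < δ) (ht : t ≤ δ) : Hf δ t = 0 := by
  unfold Hf
  rw [gg_nonpos, mul_zero]
  rw [sub_nonpos, div_le_one hδ]; exact ht

theorem Hf_ge {δ : ℝ} (hδ : 0 < δ) (t : ℝ) : t - 2 * δ ≤ Hf δ t := by
  have h1 : δ * (t / δ - 1 - 1) ≤ δ * gg (t / δ - 1) :=
    mul_le_mul_of_nonneg_left (gg_ge _) hδ.le
  have e : δ * (t / δ - 1 - 1) = t - 2 * δ := by field_simp; ring
  rw [e] at h1; exact h1

theorem Hf_le {δ : ℝ} (hδ : 0 < δ) (t : ℝ) : Hf δ t ≤ |t| := by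
  rcases le_total t δ with h | h
  · rw [Hf_zero hδ h]; exact abs_nonneg _
  · have h1 : 0 ≤ t / δ - 1 := by rw [sub_nonneg, le_div_iff₀ hδ]; linarith
    have h2 : δ * gg (t / δ - 1) ≤ δ * (t / δ - 1) := mul_le_mul_of_nonneg_left (gg_le h1) hδ.le
    have e : δ * (t / δ - 1) = t - δ := by field_simp
    rw [e] at h2
    calc Hf δ t ≤ t - δ := h2
      _ ≤ t := by linarith
      _ ≤ |t| := le_abs_self t

/-! ### unit ball -/

theorem upper_unit (hp : 1 < p) (hpN : p < N) {γ : ℝ} (hγ0 : 0 < γ) (hγ : γ < 1) :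
    ∃ C : ℝ, 0 < C ∧ ∀ E Ω : Set (Eu N), Metric.closedBall 0 (3 / 2) ⊆ E →
      cap p (Metric.closedBall 0 1 \ Ω) E ≤ ENNReal.ofReal γ * cap p (Metric.closedBall 0 1) E →
      ∃ u, IsTest Ω u ∧ NmE p u ≠ 0 ∧ EnE p u ≤ ENNReal.ofReal C * NmE p u := by
  have hp0 : 0 < p := by linarith
  set B : Set (Eu N) := Metric.closedBall 0 1 with hB
  have hBm : MeasurableSet B := Metric.isClosed_closedBall.measurableSet
  obtain ⟨c0, hc0, hcap0⟩ := cap_unit_pos hp hpN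
  obtain ⟨CS, hCS, hS⟩ := local_sobolev hp hpN
  set g1 : ℝ := γ ^ (1 / p) with hg1
  have hg10 : 0 < g1 := by positivity
  have hg11 : g1 < 1 := Real.rpow_lt_one hγ0.le hγ (by positivity)
  have hg1p : g1 ^ p = γ := by
    rw [hg1, ← Real.rpow_mul hγ0.le, one_div_mul_cancel hp0.ne', Real.rpow_one]
  set g2 : ℝ := (2 * g1 + 1) / 3 with hg2
  set g3 : ℝ := (g1 + 2) / 3 with hg3
  set d : ℝ := (1 - g1) / 3 with hd
  have hd0 : 0 < d := by rw [hd]; linarith
  have hg12 : g1 < g2 := by rw [hg2]; linarith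
  have hg21 : g2 < 1 := by rw [hg2]; linarith
  have hg31 : g3 < 1 := by rw [hg3]; linarith
  have hg23 : g3 - g2 = d := by rw [hg3, hg2, hd]; ring
  have hg20 : 0 < g2 := by linarith
  have hg30 : 0 < g3 := by linarith
  obtain ⟨s, hs0, hs4, hst⟩ := stretch (N := N) hp (θ := g3 ^ p) (by positivity)
    (Real.rpow_lt_one hg30.le hg31 hp0)
  set χ : ContDiffBump (0 : Eu N) := ⟨1, 3 / 2, by norm_num, by norm_num⟩ with hχ
  set η1 : ContDiffBump (0 : Eu N) := ⟨1 - 2 * s, 1 - s, by linarith, by linarith⟩ with hη1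
  set η2 : ContDiffBump (0 : Eu N) := ⟨1 - s, 1, by linarith, by linarith⟩ with hη2
  obtain ⟨M1, hM1, hM1b⟩ := bump_bound η1
  obtain ⟨M2, hM2, hM2b⟩ := bump_bound η2
  have hχt : ∀ E : Set (Eu N), Metric.closedBall 0 (3 / 2) ⊆ E → IsTest E χ :=
    fun E hE => bump_test χ hE
  have hη2u : IsTest (univ : Set (Eu N)) η2 := bump_test η2 (subset_univ _)
  set b : ℝ := c0 ^ (1 / p) with hb
  have hb0 : 0 < b := by positivity
  set b1 : ℝ := nm p (fderiv ℝ (χ : Eu N → ℝ)) with hb1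
  have hb1n : 0 ≤ b1 := nm_nonneg _
  set n2 : ℝ := nm p (η2 : Eu N → ℝ) with hn2
  have hn2n : 0 ≤ n2 := nm_nonneg _
  set V : ℝ := nm p (B.indicator (fun _ : Eu N => (1 : ℝ))) with hV
  have hVn : 0 ≤ V := nm_nonneg _
  set δ : ℝ := d * b / (4 * M1 * (n2 + 1)) with hδ
  have hδ0 : 0 < δ := by positivity
  set e : ℝ := d * b / (2 * M1) with he
  have he0 : 0 < e := by positivity
  set U : ℝ := b1 + M2 * V + M2 * (CS.toReal * b1) with hU
  have hCSn : 0 ≤ CS.toReal := ENNReal.toReal_nonneg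
  have hU0 : 0 ≤ U := by positivity
  refine ⟨(U / e) ^ p + 1, by positivity, fun E Ω hE hcap => ?_⟩
  -- the number a
  set A : ℝ≥0∞ := cap p B E with hA
  have hAle : A ≤ ENNReal.ofReal (b1 ^ p) := by
    rw [hb1, ← EnE_nm hp (hχt E hE)]
    exact cap_le (hχt E hE) fun x hx => (χ.one_of_mem_closedBall hx).ge
  have hAt : A ≠ ⊤ := ne_top_of_le_ne_top ENNReal.ofReal_ne_top hAle
  set a : ℝ := A.toReal ^ (1 / p) with ha
  have hap : a ^ p = A.toReal := by
    rw [ha, ← Real.rpow_mul ENNReal.toReal_nonneg, one_div_mul_cancel hp0.ne', Real.rpow_one]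
  have hAa : A = ENNReal.ofReal (a ^ p) := by rw [hap, ENNReal.ofReal_toReal hAt]
  have hba : b ≤ a := by
    refine Real.rpow_le_rpow hc0.le ?_ (by positivity)
    exact (ENNReal.ofReal_le_iff_le_toReal hAt).mp (hcap0 E)
  have ha0 : 0 < a := hb0.trans_le hba
  have hab1 : a ≤ b1 := by
    have h1 : a ^ p ≤ b1 ^ p := by
      rw [hap]; exact ENNReal.toReal_le_of_le_ofReal (by positivity) hAle
    exact (Real.rpow_le_rpow_iff ha0.le hb1n hp0).mp h1
  -- the function φ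
  have hlt : cap p (B \ Ω) E < ENNReal.ofReal ((g2 * a) ^ p) := by
    refine hcap.trans_lt ?_
    rw [hAa, ← ENNReal.ofReal_mul hγ0.le, ← hg1p, ← Real.mul_rpow hg10.le ha0.le]
    refine (ENNReal.ofReal_lt_ofReal_iff (by positivity)).mpr ?_
    exact Real.rpow_lt_rpow (by positivity) (by gcongr) hp0
  obtain ⟨φ, hφ, hφ1, hφE⟩ := exists_of_cap_lt hlt
  set q : ℝ := nm p (fderiv ℝ φ) with hq
  have hq0 : 0 ≤ q := nm_nonneg _
  have hqa : q < g2 * a := by
    rw [EnE_nm hp hφ] at hφE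
    have := (ENNReal.ofReal_lt_ofReal_iff (by positivity)).mp hφE
    exact (Real.rpow_lt_rpow_iff hq0 (by positivity) hp0).mp this
  have hqb : q ≤ b1 := by nlinarith
  have hvs : ContDiff ℝ ∞ fun x => Hf δ (1 - φ x) :=
    Hf_smooth.comp (contDiff_const.sub hφ.1)
  set u : Eu N → ℝ := fun x => η2 x * Hf δ (1 - φ x) with hu
  have huu : IsTest (univ : Set (Eu N)) u := mul_test hη2u hvs
  have hsub : tsupport u ⊆ Metric.closedBall 0 1 ∩ {x | δ ≤ 1 - φ x} := by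
    refine closure_minimal ?_ (Metric.isClosed_closedBall.inter
      (isClosed_le continuous_const (continuous_const.sub hφ.1.continuous)))
    intro x hx
    have hx' : u x ≠ 0 := hx
    constructor
    · by_contra hcon
      refine hx' ?_
      have : η2 x = 0 := image_eq_zero_of_notMem_tsupport (by rw [η2.tsupport_eq]; exact hcon)
      rw [hu]; simp only []; rw [this, zero_mul]
    · by_contra hcon
      refine hx' ?_
      have h1 : 1 - φ x ≤ δ := by
        exact (not_le.mp hcon).le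
      rw [hu]; simp only []; rw [Hf_zero hδ0 h1, mul_zero]
  have hut : IsTest Ω u := by
    refine ⟨huu.1, huu.2.1, hsub.trans ?_⟩
    intro x hx
    by_contra hcon
    have h1 := hφ1 x ⟨hx.1, hcon⟩
    have h2 : δ ≤ 1 - φ x := hx.2
    linarith
  -- derivative of H(1 - φ)
  have hHd : ∀ x, HasFDerivAt (fun x => Hf δ (1 - φ x))
      (Real.smoothTransition ((1 - φ x) / δ - 1) • (-(fderiv ℝ φ x))) x := by
    intro x
    have k1 : HasFDerivAt (fun x => 1 - φ x) (-fderiv ℝ φ x) x :=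
      (hφ.diff x).hasFDerivAt.const_sub 1
    have k2 : HasFDerivAt (Hf δ ∘ fun x => 1 - φ x)
      (Real.smoothTransition ((1 - φ x) / δ - 1) • (-(fderiv ℝ φ x))) x :=
      HasDerivAt.comp_hasFDerivAt (f := fun x => 1 - φ x) x (Hf_deriv hδ0 (1 - φ x)) k1
    exact k2
  -- lower bound of the norm of u
  set ψ : Eu N → ℝ := φ + fun x => η1 x * (Hf δ (1 - φ x) + 2 * δ) with hψ
  have hη1t : IsTest E η1 := by
    refine bump_test η1 (Subset.trans (Metric.closedBall_subset_closedBall ?_) hE)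
    show 1 - s ≤ 3 / 2; linarith
  have hψt : IsTest E ψ := hφ.add (mul_test hη1t (hvs.add contDiff_const))
  have hψ1 : ∀ x ∈ Metric.closedBall (0 : Eu N) (1 - 2 * s), 1 ≤ ψ x := by
    intro x hx
    have h1 : η1 x = 1 := η1.one_of_mem_closedBall hx
    show 1 ≤ φ x + η1 x * (Hf δ (1 - φ x) + 2 * δ)
    rw [h1, one_mul]
    linarith [Hf_ge hδ0 (1 - φ x)]
  have hlow : g3 * a ≤ nm p (fderiv ℝ ψ) := by
    have h1 := (hst E hE).trans (cap_le hψt hψ1)
    rw [← hB, ← hA, hAa, ← ENNReal.ofReal_mul (by positivity), ← Real.mul_rpow hg30.le ha0.le,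
      EnE_nm hp hψt] at h1
    have h2 := (ENNReal.ofReal_le_ofReal_iff (Real.rpow_nonneg (nm_nonneg _) p)).mp h1
    exact (Real.rpow_le_rpow_iff (by positivity) (nm_nonneg _) hp0).mp h2
  have hsT0 : ∀ t, 0 ≤ Real.smoothTransition t := Real.smoothTransition.nonneg
  have hsT1 : ∀ t, Real.smoothTransition t ≤ 1 := Real.smoothTransition.le_one
  have hup1 : nm p (fderiv ℝ ψ) ≤ q + M1 * nm p u + (M1 * (2 * δ)) * n2 := by
    refine nm3 hp (mem_fd hφ) (mem_f huu) (mem_f hη2u) hM1.le (by positivity) fun x => ?_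
    have hη1d : HasFDerivAt (η1 : Eu N → ℝ) (fderiv ℝ η1 x) x := (hη1t.diff x).hasFDerivAt
    have h1 : fderiv ℝ ψ x = fderiv ℝ φ x + (η1 x • (Real.smoothTransition ((1 - φ x) / δ - 1) •
        (-(fderiv ℝ φ x))) + (Hf δ (1 - φ x) + 2 * δ) • fderiv ℝ η1 x) :=
      ((hφ.diff x).hasFDerivAt.add (hη1d.mul ((hHd x).add_const (2 * δ)))).fderiv
    set τ : ℝ := Real.smoothTransition ((1 - φ x) / δ - 1) with hτ
    have h2 : fderiv ℝ ψ x = (1 - η1 x * τ) • fderiv ℝ φ x +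
        (Hf δ (1 - φ x) + 2 * δ) • fderiv ℝ η1 x := by
      rw [h1]; module
    have hη10 : 0 ≤ η1 x := η1.nonneg
    have hη11 : η1 x ≤ 1 := η1.le_one
    have hη20 : 0 ≤ η2 x := η2.nonneg
    have hτ0 : 0 ≤ τ := hsT0 _
    have hτ1 : τ ≤ 1 := hsT1 _
    have hH0 := Hf_nonneg hδ0 (1 - φ x)
    have h3 : ‖(1 - η1 x * τ) • fderiv ℝ φ x‖ ≤ ‖fderiv ℝ φ x‖ := by
      rw [norm_smul, Real.norm_eq_abs]
      have h4 : |1 - η1 x * τ| ≤ 1 := by
        rw [abs_le]; constructor <;> nlinarith [mul_nonneg hη10 hτ0, mul_le_mul hη11 hτ1 hτ0 zero_le_one]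
      nlinarith [norm_nonneg (fderiv ℝ φ x)]
    have h5 : ‖(Hf δ (1 - φ x) + 2 * δ) • fderiv ℝ η1 x‖ ≤
        M1 * ‖u x‖ + (M1 * (2 * δ)) * ‖η2 x‖ := by
      by_cases hx : x ∈ Metric.closedBall (0 : Eu N) (1 - s)
      · have h6 : η2 x = 1 := η2.one_of_mem_closedBall hx
        have h7 : u x = Hf δ (1 - φ x) := by rw [hu]; simp only []; rw [h6, one_mul]
        rw [h7, h6, norm_one, norm_smul, Real.norm_eq_abs, Real.norm_eq_abs, abs_of_nonneg hH0,
          abs_of_nonneg (by positivity)]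
        have := hM1b x
        nlinarith
      · have h6 : fderiv ℝ η1 x = 0 := fd_zero (by rw [η1.tsupport_eq]; exact hx)
        rw [h6, smul_zero, norm_zero]; positivity
    calc ‖fderiv ℝ ψ x‖ ≤ ‖(1 - η1 x * τ) • fderiv ℝ φ x‖ +
        ‖(Hf δ (1 - φ x) + 2 * δ) • fderiv ℝ η1 x‖ := by rw [h2]; exact norm_add_le _ _
      _ ≤ ‖fderiv ℝ φ x‖ + (M1 * ‖u x‖ + (M1 * (2 * δ)) * ‖η2 x‖) := add_le_add h3 h5
      _ = _ := by ring
  have hδn : (M1 * (2 * δ)) * n2 ≤ d * b / 2 := by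
    have h1 : M1 * (2 * δ) * (n2 + 1) = d * b / 2 := by rw [hδ]; field_simp; ring
    have h2 : 0 ≤ M1 * (2 * δ) := by positivity
    nlinarith
  have hnu : e ≤ nm p u := by
    have h1 : d * a ≤ M1 * nm p u + d * b / 2 := by
      have : d * a = g3 * a - g2 * a := by rw [← hg23]; ring
      linarith
    have h2 : d * b ≤ d * a := by gcongr
    rw [he, div_le_iff₀ (by positivity)]
    linarith
  have hnu0 : 0 < nm p u := he0.trans_le hnu
  -- upper bound of the energy of u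
  have hI1 : MemLp (B.indicator (fun _ : Eu N => (1 : ℝ))) (ENNReal.ofReal p) volume :=
    memLp_indicator_const _ hBm 1 (Or.inr (isCompact_closedBall (0 : Eu N) 1).measure_lt_top.ne)
  have hI2 : MemLp (B.indicator φ) (ENNReal.ofReal p) volume := (mem_f hφ).indicator hBm
  have hI2n : nm p (B.indicator φ) ≤ CS.toReal * q := by
    unfold nm
    rw [hq, nm, ← ENNReal.toReal_mul, eLpNorm_indicator_eq_eLpNorm_restrict hBm]
    exact ENNReal.toReal_mono (ENNReal.mul_ne_top hCS (mem_fd hφ).eLpNorm_ne_top) (hS E φ hφ)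
  have hup2 : nm p (fderiv ℝ u) ≤ q + M2 * V + M2 * nm p (B.indicator φ) := by
    refine nm3 hp (mem_fd hφ) hI1 hI2 hM2.le hM2.le fun x => ?_
    have hη2d : HasFDerivAt (η2 : Eu N → ℝ) (fderiv ℝ η2 x) x := (hη2u.diff x).hasFDerivAt
    have h1 : fderiv ℝ u x = η2 x • (Real.smoothTransition ((1 - φ x) / δ - 1) •
        (-(fderiv ℝ φ x))) + Hf δ (1 - φ x) • fderiv ℝ η2 x := (hη2d.mul (hHd x)).fderiv
    set τ : ℝ := Real.smoothTransition ((1 - φ x) / δ - 1) with hτ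
    have hη20 : 0 ≤ η2 x := η2.nonneg
    have hη21 : η2 x ≤ 1 := η2.le_one
    have hτ0 : 0 ≤ τ := hsT0 _
    have hτ1 : τ ≤ 1 := hsT1 _
    have hH0 := Hf_nonneg hδ0 (1 - φ x)
    have h3 : ‖η2 x • (τ • (-(fderiv ℝ φ x)))‖ ≤ ‖fderiv ℝ φ x‖ := by
      rw [norm_smul, norm_smul, norm_neg, Real.norm_eq_abs, Real.norm_eq_abs, abs_of_nonneg hη20,
        abs_of_nonneg hτ0]
      calc η2 x * (τ * ‖fderiv ℝ φ x‖) ≤ 1 * (1 * ‖fderiv ℝ φ x‖) := by gcongr
        _ = _ := by rw [one_mul, one_mul]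
    have h5 : ‖Hf δ (1 - φ x) • fderiv ℝ η2 x‖ ≤
        M2 * ‖B.indicator (fun _ : Eu N => (1 : ℝ)) x‖ + M2 * ‖B.indicator φ x‖ := by
      by_cases hx : x ∈ B
      · rw [indicator_of_mem hx, indicator_of_mem hx, norm_one, norm_smul, Real.norm_eq_abs,
          abs_of_nonneg hH0, Real.norm_eq_abs]
        have h7 : Hf δ (1 - φ x) ≤ 1 + |φ x| := by
          refine (Hf_le hδ0 _).trans ?_
          calc |1 - φ x| ≤ |(1 : ℝ)| + |φ x| := abs_sub _ _
            _ = _ := by rw [abs_one]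
        calc Hf δ (1 - φ x) * ‖fderiv ℝ η2 x‖ ≤ (1 + |φ x|) * M2 := by
              gcongr
              exact hM2b x
          _ = _ := by ring
      · have h6 : fderiv ℝ η2 x = 0 := fd_zero (by rw [η2.tsupport_eq]; exact hx)
        rw [h6, smul_zero, norm_zero]; positivity
    calc ‖fderiv ℝ u x‖ ≤ ‖η2 x • (τ • (-(fderiv ℝ φ x)))‖ +
        ‖Hf δ (1 - φ x) • fderiv ℝ η2 x‖ := by rw [h1]; exact norm_add_le _ _
      _ ≤ ‖fderiv ℝ φ x‖ + (M2 * ‖B.indicator (fun _ : Eu N => (1 : ℝ)) x‖ +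
          M2 * ‖B.indicator φ x‖) := add_le_add h3 h5
      _ = _ := by ring
  have hDu : nm p (fderiv ℝ u) ≤ U := by
    refine hup2.trans ?_
    have h1 : CS.toReal * q ≤ CS.toReal * b1 := by gcongr
    have h2 : M2 * nm p (B.indicator φ) ≤ M2 * (CS.toReal * b1) := by
      refine mul_le_mul_of_nonneg_left (hI2n.trans h1) hM2.le
    rw [hU]; linarith
  refine ⟨u, hut, ?_, ?_⟩
  · rw [NmE_nm hp hut, Ne, ENNReal.ofReal_eq_zero, not_le]
    positivity
  · rw [NmE_nm hp hut, EnE_nm hp hut, ← ENNReal.ofReal_mul (by positivity)]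
    refine ENNReal.ofReal_le_ofReal ?_
    have h1 : nm p (fderiv ℝ u) ^ p ≤ U ^ p := Real.rpow_le_rpow (nm_nonneg _) hDu hp0.le
    have h2 : e ^ p ≤ nm p u ^ p := Real.rpow_le_rpow he0.le hnu hp0.le
    have h3 : (U / e) ^ p * e ^ p = U ^ p := by
      rw [← Real.mul_rpow (by positivity) he0.le, div_mul_cancel₀ _ he0.ne']
    have h4 : 0 ≤ (U / e) ^ p := by positivity
    have h5 : 0 ≤ nm p u ^ p := by positivity
    nlinarith

end Pool.Agent.X104.CI
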