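import Pool.Agent.X104.CI.Lower

/-!
Upper bound of the Poincaré constant from a ball with small relative capacity of the complement.
-/

set_option autoImplicit false
set_option linter.unusedSectionVars false

noncomputable section

open Filter Topology Set MeasureTheory
open scoped ENNReal ContDiff NNReal

namespace Pool.Agent.X104.CI

open Pool.Agent.X104.PS

variable {N : ℕ} {p : ℝ}

/-! ### positivity and finiteness -/

theorem cap_unit_pos (hp : 1 < p) (hpN : p < N) : ∃ c : ℝ, 0 < c ∧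
    ∀ E : Set (Eu N), ENNReal.ofReal c ≤ cap p (Metric.closedBall 0 1) E := by
  have hp0 : 0 < p := by linarith
  obtain ⟨C, hC, hS⟩ := local_sobolev hp hpN
  set B : Set (Eu N) := Metric.closedBall 0 1 with hB
  set v : ℝ≥0∞ := eLpNorm (fun _ : Eu N => (1 : ℝ)) (ENNReal.ofReal p) (volume.restrict B) with hv
  have hv0 : v ≠ 0 := by
    intro h
    have hBm : (volume.restrict B : Measure (Eu N)) ≠ 0 := by
      rw [Ne, Measure.restrict_eq_zero]
      exact (Metric.measure_closedBall_pos volume 0 one_pos).ne'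
    rw [hv, eLpNorm_eq_zero_iff aestronglyMeasurable_const (P_ne_zero hp)] at h
    have hne : NeBot (ae (volume.restrict B : Measure (Eu N))) := ae_neBot.mpr hBm
    obtain ⟨x, hx⟩ := h.exists
    exact one_ne_zero hx
  set κ : ℝ≥0∞ := (v / C) ^ p with hκ
  have hκ0 : κ ≠ 0 := by
    rw [hκ, Ne, ENNReal.rpow_eq_zero_iff_of_pos hp0, ENNReal.div_eq_zero_iff]
    push Not
    exact ⟨hv0, hC⟩
  have hmin : min κ 1 ≠ 0 := by
    rcases min_choice κ 1 with h | h <;> rw [h]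
    · exact hκ0
    · exact one_ne_zero
  have hmt : min κ 1 ≠ ⊤ := ne_top_of_le_ne_top ENNReal.one_ne_top (min_le_right _ _)
  refine ⟨(min κ 1).toReal, ENNReal.toReal_pos hmin hmt, fun E => ?_⟩
  rw [ENNReal.ofReal_toReal hmt]
  refine (min_le_left _ _).trans (le_cap fun φ hφ h1 => ?_)
  have h2 : v ≤ C * eLpNorm (fderiv ℝ φ) (ENNReal.ofReal p) volume := by
    refine le_trans ?_ (hS E φ hφ)
    refine eLpNorm_mono_ae ?_
    filter_upwards [ae_restrict_mem (Metric.isClosed_closedBall.measurableSet)] with x hx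
    have := h1 x hx
    rw [norm_one, Real.norm_eq_abs, abs_of_nonneg (by linarith)]
    exact this
  have h3 : v / C ≤ eLpNorm (fderiv ℝ φ) (ENNReal.ofReal p) volume :=
    ENNReal.div_le_of_le_mul' h2
  rw [lint_eLp hp] at h3
  calc κ ≤ ((∫⁻ x, ‖fderiv ℝ φ x‖ₑ ^ p) ^ (1 / p)) ^ p := ENNReal.rpow_le_rpow h3 hp0.le
    _ = EnE p φ := by rw [← ENNReal.rpow_mul, one_div_mul_cancel hp0.ne', ENNReal.rpow_one]; rfl

theorem EnE_lt_top {E : Set (Eu N)} {φ : Eu N → ℝ} (h : IsTest E φ) (hp : 1 < p) :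
    EnE p φ < ⊤ := by
  have hp0 : 0 < p := by linarith
  have hm : MemLp (fderiv ℝ φ) (ENNReal.ofReal p) volume :=
    (h.1.continuous_fderiv (by norm_num)).memLp_of_hasCompactSupport (h.2.1.fderiv ℝ)
  have h1 := hm.eLpNorm_lt_top
  rw [lint_eLp hp] at h1
  by_contra hcon
  rw [not_lt, top_le_iff] at hcon
  have : (∫⁻ x, ‖fderiv ℝ φ x‖ₑ ^ p) = ⊤ := hcon
  rw [this, ENNReal.top_rpow_of_pos (by positivity)] at h1
  exact lt_irrefl _ h1

theorem bump_test (f0 : ContDiffBump (0 : Eu N)) {E : Set (Eu N)}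
    (h : Metric.closedBall 0 f0.rOut ⊆ E) : IsTest E f0 :=
  ⟨f0.contDiff, f0.hasCompactSupport, by rw [f0.tsupport_eq]; exact h⟩

/-! ### stretching -/

theorem stretch (hp : 1 < p) {θ : ℝ} (hθ0 : 0 < θ) (hθ : θ < 1) : ∃ s : ℝ, 0 < s ∧ s < 1 / 4 ∧
    ∀ E : Set (Eu N), Metric.closedBall 0 (3 / 2) ⊆ E →
      ENNReal.ofReal θ * cap p (Metric.closedBall 0 1) E ≤
        cap p (Metric.closedBall 0 (1 - 2 * s)) E := by
  have hp0 : 0 < p := by linarith
  set χ : ContDiffBump (0 : Eu N) := ⟨1, 3 / 2, by norm_num, by norm_num⟩ with hχ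
  set w : Eu N → Eu N := fun x => χ x • x with hw
  have hws : ContDiff ℝ ∞ w := χ.contDiff.smul contDiff_id
  have hwz : ∀ x, x ∉ Metric.closedBall (0 : Eu N) (3 / 2) → w x = 0 := by
    intro x hx
    have : χ x = 0 := by
      refine image_eq_zero_of_notMem_tsupport ?_
      rw [χ.tsupport_eq]; exact hx
    rw [hw]; simp only []; rw [this, zero_smul]
  have hwc : HasCompactSupport w :=
    HasCompactSupport.intro (isCompact_closedBall _ _) hwz
  obtain ⟨M0, hM0⟩ := (hws.continuous_fderiv (by norm_num)).bounded_above_of_compact_support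
    (hwc.fderiv ℝ)
  set M : ℝ := |M0| + 1 with hM
  have hMpos : 0 < M := by positivity
  have hMb : ∀ x, ‖fderiv ℝ w x‖ ≤ M := fun x => (hM0 x).trans (by linarith [le_abs_self M0])
  set θ2 : ℝ := (1 + θ) / 2 with hθ2
  have hθ21 : θ2 < 1 := by rw [hθ2]; linarith
  have hθ2θ : θ < θ2 := by rw [hθ2]; linarith
  -- determinant
  have hdet : ∃ δ > 0, ∀ A : Eu N →L[ℝ] Eu N, ‖A - ContinuousLinearMap.id ℝ (Eu N)‖ < δ →
      θ2 < |A.det| := by
    have hc : ContinuousAt (fun A : Eu N →L[ℝ] Eu N => |A.det|)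
        (ContinuousLinearMap.id ℝ (Eu N)) :=
      (ContinuousLinearMap.continuous_det.abs).continuousAt
    have h1 : |(ContinuousLinearMap.id ℝ (Eu N)).det| = 1 := by
      simp [ContinuousLinearMap.det]
    have h2 : ∀ᶠ A in 𝓝 (ContinuousLinearMap.id ℝ (Eu N)), θ2 < |A.det| := by
      refine hc.eventually (lt_mem_nhds ?_)
      show θ2 < |(ContinuousLinearMap.id ℝ (Eu N)).det|
      rw [h1]; exact hθ21
    obtain ⟨δ, hδ, h3⟩ := Metric.eventually_nhds_iff.mp h2
    refine ⟨δ, hδ, fun A hA => h3 ?_⟩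
    rw [dist_eq_norm]; exact hA
  obtain ⟨δ, hδ, hdet⟩ := hdet
  have hpow : ∃ δ' > 0, ∀ t : ℝ, 0 ≤ t → t < δ' → θ * (1 + t) ^ p < θ2 := by
    have hc : ContinuousAt (fun t : ℝ => θ * (1 + t) ^ p) 0 := by
      refine continuousAt_const.mul (ContinuousAt.rpow_const (by fun_prop) (Or.inr hp0.le))
    have h2 : ∀ᶠ t in 𝓝 (0 : ℝ), θ * (1 + t) ^ p < θ2 := by
      refine hc.eventually (gt_mem_nhds ?_)
      show θ * (1 + 0) ^ p < θ2
      rw [add_zero, Real.one_rpow, mul_one]; exact hθ2θ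
    obtain ⟨δ', hδ', h3⟩ := Metric.eventually_nhds_iff.mp h2
    refine ⟨δ', hδ', fun t ht0 ht => h3 ?_⟩
    rw [dist_zero_right, Real.norm_eq_abs, abs_of_nonneg ht0]; exact ht
  obtain ⟨δ', hδ', hpow⟩ := hpow
  set μ0 : ℝ := min δ (min δ' 1) with hμ0
  have hμ0p : 0 < μ0 := lt_min hδ (lt_min hδ' one_pos)
  set s : ℝ := min (1 / 8) (μ0 / (4 * M)) with hs
  have hs0 : 0 < s := lt_min (by norm_num) (by positivity)
  have hs1 : 2 * s * M < μ0 := by
    have : s ≤ μ0 / (4 * M) := min_le_right _ _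
    rw [le_div_iff₀ (by positivity)] at this
    nlinarith
  have hsδ : 2 * s * M < δ := hs1.trans_le (min_le_left _ _)
  have hsδ' : 2 * s * M < δ' := hs1.trans_le ((min_le_right _ _).trans (min_le_left _ _))
  have hs1' : 2 * s * M < 1 := hs1.trans_le ((min_le_right _ _).trans (min_le_right _ _))
  have hs4 : s < 1 / 4 := lt_of_le_of_lt (min_le_left _ _) (by norm_num)
  refine ⟨s, hs0, hs4, fun E hE => le_cap fun φ hφ hφ1 => ?_⟩
  set Ψ : Eu N → Eu N := fun x => x - (2 * s) • w x with hΨ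
  set D : Eu N → (Eu N →L[ℝ] Eu N) := fun x =>
    ContinuousLinearMap.id ℝ (Eu N) - (2 * s) • fderiv ℝ w x with hD
  have hΨd : ∀ x, HasFDerivAt Ψ (D x) x := fun x =>
    (hasFDerivAt_id x).sub (((hws.differentiable (by norm_num)) x).hasFDerivAt.const_smul (2 * s))
  have hΨs : ContDiff ℝ ∞ Ψ := contDiff_id.sub (hws.const_smul (2 * s))
  have hDn : ∀ x, ‖D x - ContinuousLinearMap.id ℝ (Eu N)‖ ≤ 2 * s * M := by
    intro x
    have : D x - ContinuousLinearMap.id ℝ (Eu N) = -((2 * s) • fderiv ℝ w x) := by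
      rw [hD]; simp only []; abel
    rw [this, norm_neg, norm_smul, Real.norm_eq_abs, abs_of_pos (by positivity)]
    exact mul_le_mul_of_nonneg_left (hMb x) (by positivity)
  have hDn' : ∀ x, ‖D x‖ ≤ 1 + 2 * s * M := by
    intro x
    have h1 : D x = ContinuousLinearMap.id ℝ (Eu N) + (D x - ContinuousLinearMap.id ℝ (Eu N)) := by
      abel
    rw [h1]
    refine (norm_add_le _ _).trans (add_le_add ContinuousLinearMap.norm_id_le (hDn x))
  have hinj : Function.Injective Ψ := by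
    intro x y hxy
    have h1 : x - y = (2 * s) • (w x - w y) := by
      have : x - (2 * s) • w x = y - (2 * s) • w y := hxy
      rw [smul_sub]
      rw [sub_eq_sub_iff_add_eq_add] at this ⊢
      rw [this]; abel
    have h2 : ‖w x - w y‖ ≤ M * ‖x - y‖ :=
      Convex.norm_image_sub_le_of_norm_fderiv_le (𝕜 := ℝ) (s := univ)
        (fun z _ => (hws.differentiable (by norm_num)) z) (fun z _ => hMb z) convex_univ
        (mem_univ y) (mem_univ x)
    have h3 : ‖x - y‖ ≤ 2 * s * M * ‖x - y‖ := by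
      calc ‖x - y‖ = 2 * s * ‖w x - w y‖ := by
            rw [h1, norm_smul, Real.norm_eq_abs, abs_of_pos (by positivity)]
        _ ≤ 2 * s * (M * ‖x - y‖) := by gcongr
        _ = _ := by ring
    by_contra hne
    have h4 : 0 < ‖x - y‖ := norm_pos_iff.mpr (sub_ne_zero.mpr hne)
    nlinarith
  -- the new competitor
  have hts : tsupport (φ ∘ Ψ) ⊆ Metric.closedBall 0 (3 / 2) ∪ tsupport φ := by
    have h1 : tsupport (φ ∘ Ψ) ⊆ Ψ ⁻¹' tsupport φ := by
      refine closure_minimal ?_ ((isClosed_tsupport φ).preimage hΨs.continuous)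
      intro x hx
      exact subset_tsupport φ hx
    intro x hx
    by_cases hx' : x ∈ Metric.closedBall (0 : Eu N) (3 / 2)
    · exact Or.inl hx'
    · refine Or.inr ?_
      have h2 : Ψ x ∈ tsupport φ := h1 hx
      have h3 : Ψ x = x := by
        rw [hΨ]; simp only []; rw [hwz x hx', smul_zero, sub_zero]
      rwa [h3] at h2
  have htest : IsTest E (φ ∘ Ψ) := by
    refine ⟨hφ.1.comp hΨs, ?_, hts.trans (union_subset hE hφ.2.2)⟩
    exact ((isCompact_closedBall (0 : Eu N) (3 / 2)).union hφ.2.1).of_isClosed_subset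
      (isClosed_tsupport _) hts
  have hge : ∀ x ∈ Metric.closedBall (0 : Eu N) 1, 1 ≤ (φ ∘ Ψ) x := by
    intro x hx
    refine hφ1 _ ?_
    have h1 : χ x = 1 := χ.one_of_mem_closedBall hx
    have h2 : Ψ x = (1 - 2 * s) • x := by
      rw [hΨ, hw]; simp only []; rw [h1, one_smul]; module
    rw [h2, mem_closedBall_zero_iff, norm_smul, Real.norm_eq_abs, abs_of_pos (by linarith)]
    have := mem_closedBall_zero_iff.mp hx
    nlinarith
  have hcomp : ∀ x, ‖fderiv ℝ (φ ∘ Ψ) x‖ₑ ^ p ≤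
      ENNReal.ofReal ((1 + 2 * s * M) ^ p) * ‖fderiv ℝ φ (Ψ x)‖ₑ ^ p := by
    intro x
    have h1 : fderiv ℝ (φ ∘ Ψ) x = (fderiv ℝ φ (Ψ x)).comp (D x) :=
      ((hφ.diff (Ψ x)).hasFDerivAt.comp x (hΨd x)).fderiv
    have h2 : ‖fderiv ℝ (φ ∘ Ψ) x‖ ≤ (1 + 2 * s * M) * ‖fderiv ℝ φ (Ψ x)‖ := by
      rw [h1]
      refine (ContinuousLinearMap.opNorm_comp_le _ _).trans ?_
      rw [mul_comm]
      exact mul_le_mul_of_nonneg_right (hDn' x) (norm_nonneg _)
    rw [← ENNReal.ofReal_rpow_of_pos (by positivity), ← ENNReal.mul_rpow_of_nonneg _ _ hp0.le]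
    refine ENNReal.rpow_le_rpow ?_ hp0.le
    rw [← ofReal_norm, ← ofReal_norm (x := fderiv ℝ φ (Ψ x)), ← ENNReal.ofReal_mul (by positivity)]
    exact ENNReal.ofReal_le_ofReal h2
  have hcov := lintegral_image_eq_lintegral_abs_det_fderiv_mul (volume : Measure (Eu N))
    MeasurableSet.univ (fun x _ => (hΨd x).hasFDerivWithinAt) hinj.injOn
    (fun x => ‖fderiv ℝ φ x‖ₑ ^ p)
  rw [Measure.restrict_univ] at hcov
  calc ENNReal.ofReal θ * cap p (Metric.closedBall 0 1) E
      ≤ ENNReal.ofReal θ * EnE p (φ ∘ Ψ) := by gcongr; exact cap_le htest hge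
    _ ≤ ENNReal.ofReal θ * ∫⁻ x, ENNReal.ofReal ((1 + 2 * s * M) ^ p) *
          ‖fderiv ℝ φ (Ψ x)‖ₑ ^ p := by gcongr; exact lintegral_mono hcomp
    _ = ∫⁻ x, ENNReal.ofReal (θ * (1 + 2 * s * M) ^ p) * ‖fderiv ℝ φ (Ψ x)‖ₑ ^ p := by
        rw [← lintegral_const_mul' _ _ ENNReal.ofReal_ne_top]
        refine lintegral_congr fun x => ?_
        rw [← mul_assoc, ← ENNReal.ofReal_mul hθ0.le]
    _ ≤ ∫⁻ x, ENNReal.ofReal |(D x).det| * ‖fderiv ℝ φ (Ψ x)‖ₑ ^ p := by
        refine lintegral_mono fun x => ?_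
        gcongr
        exact (hpow _ (by positivity) hsδ').le.trans (hdet _ ((hDn x).trans_lt hsδ)).le
    _ = ∫⁻ x in Ψ '' univ, ‖fderiv ℝ φ x‖ₑ ^ p := hcov.symm
    _ ≤ EnE p φ := setLIntegral_le_lintegral _ _

end Pool.Agent.X104.CI
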